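import Pool.Agent.J4H59.PE.S1
import Pool.Agent.J4H59.PD.Main1
import Mathlib.RingTheory.LaurentSeries
import Mathlib.GroupTheory.FreeGroup.NielsenSchreier

/-!
# Statements of the parts of the proof
-/

set_option autoImplicit false

open scoped Classical Matrix

namespace Pool.Agent.J4H59.PH

open Pool.Agent.Helper386.PD3 Pool.Agent.J4H59.PD Pool.Agent.J4H59.PE

noncomputable section

/-- FREE -/
def S_FREE : Prop := ∀ (G : Type) [Group G] (n : ℕ) (w : G →* ℤˣ)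
  (e0 e1 e2 e3 d0 d1 d2 : MR G n), Full w e0 e1 e2 e3 d0 d1 d2 → AllDer (G := G) (RR G) →
  ∀ N : Subgroup G, IsFreeGroup N → AllDer (G := G) (famF N).sub

/-- integral polynomials as Laurent series -/
def P2L : Polynomial ℤ →+* LaurentSeries ℚ :=
  (HahnSeries.ofPowerSeries ℤ ℚ).comp ((Polynomial.coeToPowerSeries.ringHom).comp
    (Polynomial.mapRingHom (Int.castRingHom ℚ)))

/-- LAU -/
def S_LAU : Prop := ∀ (ι : Type) [Finite ι] (κ : ι → LaurentSeries ℚ),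
  ∃ (k : ℕ) (y : Fin k → LaurentSeries ℚ) (a : Fin k → ι → Polynomial ℤ),
    (∀ j, κ j = ∑ l, P2L (a l j) * y l) ∧
    ∀ c : Fin k → Polynomial ℤ, ∑ l, P2L (c l) * y l = 0 → ∀ l, c l = 0

/-- GRP -/
def S_GRP : Prop := ∀ (G : Type) [Group G] (N : Subgroup G), IsFreeGroup N → N.FG →
  (∃ a ∈ N, ∃ b ∈ N, a * b ≠ b * a) → ∀ w : G →* ℤˣ,
    (N ⊓ w.ker).FG ∧ IsFreeGroup ↥(N ⊓ w.ker) ∧
    ∃ (x y : ↥(N ⊓ w.ker)) (l m : ↥(N ⊓ w.ker) →* Multiplicative ℤ),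
      l x = Multiplicative.ofAdd 1 ∧ l y = 1 ∧ m x = 1 ∧ m y = Multiplicative.ofAdd 1

/-- VD -/
def S_VD : Prop := ∀ (G : Type) [Group G] (n : ℕ) (e0 e1 e2 d0 d1 : MR G n),
  Low e0 e1 e2 d0 d1 →
  ∃ (V : G → Fin n → RR G) (u0 : Fin n → RR G),
    (∀ g, V g ᵥ* e1 = V g) ∧ (∀ g, V g ᵥ* d0 = gof g • u0 - u0) ∧
    ∀ (M : Type) [AddCommGroup M] [Module (RR G) M],
      (∀ φ : Fin n → M, col e1 φ = φ → col d1 φ = 0 →
        (∀ g h, pr (V (g * h)) φ = pr (V g) φ + gof g • pr (V h) φ) ∧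
        ((∃ μ : M, ∀ g, pr (V g) φ = gof g • μ - μ) → ∃ θ : Fin n → M, col d0 θ = φ)) ∧
      (∀ δ : G → M, (∀ g h, δ (g * h) = δ g + gof g • δ h) →
        ∃ φ : Fin n → M, col e1 φ = φ ∧ col d1 φ = 0 ∧
          ∃ ν : M, ∀ g, pr (V g) φ = δ g + (gof g • ν - ν))

/-- RAY -/
def S_RAY : Prop := ∀ (G : Type) [Group G] (n : ℕ) (e0 e1 e2 d0 d1 : MR G n),
  Low e0 e1 e2 d0 d1 → ∀ (N : Subgroup G) (t : G) (hn : t ∈ Subgroup.normalizer (N : Set G))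
    (ht : ∀ k : ℤ, k ≠ 0 → t ^ k ∉ N), AllDer (G := G) (famF N).sub →
    AllDer (G := G) (mkLv (A := N) (t := t) hn le_rfl ht).famP.sub

end

end Pool.Agent.J4H59.PH
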