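import Pool.Agent.J4H59.PH.Ring
import Pool.Agent.J4H59.PH.Jobs

/-!
# Potentials of derivations, and the second cohomology of the finitely supported functions
-/

set_option autoImplicit false
set_option linter.unusedSectionVars false

open scoped Classical Matrix
open Filter

namespace Pool.Agent.J4H59.PH

open Pool.Agent.Helper386.PD3 Pool.Agent.J4H59.PD

noncomputable section

variable {G : Type} [Group G] {N : Subgroup G}

/-- the third ray: derivations with values in functions vanishing along a ray are given by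
potentials on the cosets -/
theorem exists_pot {M : Submodule (RR G) (Fn N)} {s : ℕ → G}
    (hs : ∀ k, s k ∈ Subgroup.normalizer (N : Set G)) (hM : ∀ m ∈ M, Ev s 0 m) {d : ℕ} (x : Fin d → G)
    (hx : Subgroup.closure (Set.range x) = N) (δ : G → M)
    (hδ : ∀ g h, δ (g * h) = δ g + gof g • δ h) :
    ∃ f : Fn N, ∀ g, ((δ g : M) : Fn N) = gof g • f - f := by
  have hδ' : ∀ g h y, ((δ (g * h) : M) : Fn N) y = (δ g : Fn N) y + (δ h : Fn N) (g⁻¹ • y) := by
    intro g h y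
    have h1 := congrArg (fun m : M => (m : Fn N) y) (hδ g h)
    have h2 : ((δ (g * h) : M) : Fn N) y = ((δ g : Fn N) + gof g • (δ h : Fn N)) y := h1
    rw [h2, PD.add_apply, gof_apply]
  let o : G ⧸ N := ((1 : G) : G ⧸ N)
  have hno : ∀ n ∈ N, n • o = o := by
    intro n hn
    change ((n * 1 : G) : G ⧸ N) = ((1 : G) : G ⧸ N)
    rw [mul_one, eq_comm, QuotientGroup.eq, inv_one, one_mul]
    exact hn
  have hgo : ∀ g : G, g • o = (g : G ⧸ N) := by
    intro g
    change ((g * 1 : G) : G ⧸ N) = _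
    rw [mul_one]
  let μ : G → ℤ := fun n => (δ n : Fn N) o
  have hμ : ∀ n ∈ N, ∀ m, μ (n * m) = μ n + μ m := by
    intro n hn m
    change ((δ (n * m) : M) : Fn N) o = _
    rw [hδ', hno _ (N.inv_mem hn)]
  have hμ1 : μ 1 = 0 := by
    have := hμ 1 N.one_mem 1
    rw [mul_one] at this
    linarith
  have key : ∀ n ∈ N, ∀ k : ℕ, (δ n : Fn N) ((s k : G) : G ⧸ N) = μ ((s k)⁻¹ * n * s k) := by
    intro n hn k
    have hn' : (s k)⁻¹ * n * s k ∈ N := by
      have h1 := (Subgroup.mem_normalizer_iff.1 (Subgroup.inv_mem _ (hs k)) n).1 hn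
      rwa [inv_inv] at h1
    have e1 : (s k)⁻¹ * n * s k = (s k)⁻¹ * (n * s k) := by group
    have h2 : μ ((s k)⁻¹ * (n * s k)) = (δ (s k)⁻¹ : Fn N) o + (δ n : Fn N) ((s k : G) : G ⧸ N) +
        (δ (s k) : Fn N) (n⁻¹ • ((s k : G) : G ⧸ N)) := by
      change ((δ ((s k)⁻¹ * (n * s k)) : M) : Fn N) o = _
      rw [hδ', hδ', inv_inv, hgo]
      ring
    have h3 : (0 : ℤ) = (δ (s k)⁻¹ : Fn N) o + (δ (s k) : Fn N) ((s k : G) : G ⧸ N) := by
      rw [← hμ1]
      change ((δ 1 : M) : Fn N) o = _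
      rw [← inv_mul_cancel (s k), hδ', inv_inv, hgo]
    have h4 : n⁻¹ • ((s k : G) : G ⧸ N) = ((s k : G) : G ⧸ N) := by
      change ((n⁻¹ * s k : G) : G ⧸ N) = _
      rw [eq_comm, QuotientGroup.eq]
      have h5 := N.inv_mem hn'
      have h6 : ((s k)⁻¹ * n * s k)⁻¹ = (s k)⁻¹ * (n⁻¹ * s k) := by group
      rwa [h6] at h5
    rw [e1, h2, h4]
    linarith
  have hk : ∃ k : ℕ, ∀ i, μ ((s k)⁻¹ * x i * s k) = 0 := by
    have h1 : ∀ i, ∀ᶠ k : ℕ in atTop, ((δ (x i) : M) : Fn N) ((1 * s k : G) : G ⧸ N) = 0 :=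
      fun i => hM _ (δ (x i)).2 1
    obtain ⟨k, hk⟩ := (Filter.eventually_all.2 h1).exists
    refine ⟨k, fun i => ?_⟩
    rw [← key (x i) (by rw [← hx]; exact Subgroup.subset_closure ⟨i, rfl⟩) k]
    have := hk i
    rwa [one_mul] at this
  obtain ⟨k, hk⟩ := hk
  have hconj : ∀ y ∈ N, μ ((s k)⁻¹ * y * s k) = 0 ∧ (s k)⁻¹ * y * s k ∈ N := by
    have hin : ∀ y ∈ N, (s k)⁻¹ * y * s k ∈ N := by
      intro y hy
      have h1 := (Subgroup.mem_normalizer_iff.1 (Subgroup.inv_mem _ (hs k)) y).1 hy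
      rwa [inv_inv] at h1
    intro y hy
    refine ⟨?_, hin y hy⟩
    rw [← hx] at hy
    induction hy using Subgroup.closure_induction with
    | mem y hy =>
      obtain ⟨i, rfl⟩ := hy
      exact hk i
    | one =>
      have : (s k)⁻¹ * 1 * s k = 1 := by group
      rw [this, hμ1]
    | mul y y' hy hy' ih ih' =>
      have h1 : (s k)⁻¹ * (y * y') * s k = ((s k)⁻¹ * y * s k) * ((s k)⁻¹ * y' * s k) := by
        group
      rw [h1, hμ _ (hin y (hx ▸ hy)), ih, ih', add_zero]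
    | inv y hy ih =>
      have h1 : (s k)⁻¹ * y⁻¹ * s k = ((s k)⁻¹ * y * s k)⁻¹ := by group
      have h2 := hμ _ (hin y (hx ▸ hy)) ((s k)⁻¹ * y * s k)⁻¹
      rw [mul_inv_cancel, hμ1, ih, zero_add] at h2
      rw [h1, ← h2]
  have hμ0 : ∀ n ∈ N, μ n = 0 := by
    intro n hn
    have h1 : s k * n * (s k)⁻¹ ∈ N :=
      (Subgroup.mem_normalizer_iff.1 (hs k) n).1 hn
    have h2 := (hconj _ h1).1
    have h3 : (s k)⁻¹ * (s k * n * (s k)⁻¹) * s k = n := by group
    rwa [h3] at h2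
  let f : Fn N := fun y => (δ (rp y)⁻¹ : Fn N) o
  have hf : ∀ g : G, f (g : G ⧸ N) = (δ g⁻¹ : Fn N) o := by
    intro g
    change (δ (rp (g : G ⧸ N))⁻¹ : Fn N) o = _
    have h1 : g⁻¹ * rp (g : G ⧸ N) ∈ N := by
      rw [← QuotientGroup.eq, mk_rp]
    have h2 : (rp (g : G ⧸ N))⁻¹ = (g⁻¹ * rp (g : G ⧸ N))⁻¹ * g⁻¹ := by group
    rw [h2]
    change μ _ = μ _
    rw [hμ _ (N.inv_mem h1), hμ0 _ (N.inv_mem h1), zero_add]
  refine ⟨f, fun g => fn_ext fun y => ?_⟩
  induction y using QuotientGroup.induction_on with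
  | H a =>
    rw [PD.sub_apply, gof_apply]
    have h1 : g⁻¹ • (a : G ⧸ N) = ((g⁻¹ * a : G) : G ⧸ N) := rfl
    rw [h1, hf, hf]
    have h2 : (g⁻¹ * a)⁻¹ = a⁻¹ * g := by group
    rw [h2, hδ', inv_inv, hgo]
    ring

variable {n : ℕ}

theorem pr_coe {M : Submodule (RR G) (Fn N)} (v : Fin n → RR G) (φ : Fin n → M) :
    ((pr v φ : M) : Fn N) = pr v (fun j => (φ j : Fn N)) := by
  change ((∑ j, v j • φ j : M) : Fn N) = ∑ j, v j • (φ j : Fn N)
  rw [Submodule.coe_sum]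
  rfl

theorem col_mem (M : Submodule (RR G) (Fn N)) (D : MR G n) {φ : Fin n → Fn N}
    (hφ : ∀ i, φ i ∈ M) (i : Fin n) : col D φ i ∈ M :=
  Submodule.sum_mem _ fun j _ => Submodule.smul_mem _ _ (hφ j)

theorem pr_zsmul (z : ℤ) (v : Fin n → RR G) (φ : Fin n → Fn N) : pr v (z • φ) = z • pr v φ := by
  unfold pr
  rw [Finset.smul_sum]
  refine Finset.sum_congr rfl fun i _ => ?_
  change v i • (z • φ i) = z • (v i • φ i)
  exact smul_comm _ _ _

theorem col_zsmul (z : ℤ) (D : MR G n) (φ : Fin n → Fn N) : col D (z • φ) = z • col D φ := by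
  funext i
  exact pr_zsmul _ _ _

/-- exactness in degree two -/
def Ex2 (e2 d1 d2 : MR G n) (M : Submodule (RR G) (Fn N)) : Prop :=
  ∀ z : Fin n → Fn N, (∀ i, z i ∈ M) → col e2 z = z → col d2 z = 0 →
    ∃ u : Fin n → Fn N, (∀ i, u i ∈ M) ∧ col d1 u = z

/-- everything we need about the rays and the resolution -/
structure Dat (e0 e1 e2 d0 d1 d2 : MR G n) (V : G → Fin n → RR G) (N : Subgroup G) (a b c : ℕ → G) :
    Prop where
  low : Low e0 e1 e2 d0 d1
  d2d1 : d2 * d1 = 0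
  V : ∀ (M : Type) [AddCommGroup M] [Module (RR G) M],
      (∀ φ : Fin n → M, col e1 φ = φ → col d1 φ = 0 →
        (∀ g h, pr (V (g * h)) φ = pr (V g) φ + gof g • pr (V h) φ) ∧
        ((∃ μ : M, ∀ g, pr (V g) φ = gof g • μ - μ) → ∃ θ : Fin n → M, col d0 θ = φ)) ∧
      (∀ δ : G → M, (∀ g h, δ (g * h) = δ g + gof g • δ h) →
        ∃ φ : Fin n → M, col e1 φ = φ ∧ col d1 φ = 0 ∧
          ∃ ν : M, ∀ g, pr (V g) φ = δ g + (gof g • ν - ν))
  tri : Tri N a b c
  na : ∀ k, a k ∈ Subgroup.normalizer (N : Set G)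
  nb : ∀ k, b k ∈ Subgroup.normalizer (N : Set G)
  nc : ∀ k, c k ∈ Subgroup.normalizer (N : Set G)
  fg : ∃ (d : ℕ) (x : Fin d → G), Subgroup.closure (Set.range x) = N
  xa : Ex2 e2 d1 d2 (rayF N a).sub
  xb : Ex2 e2 d1 d2 (rayF N b).sub
  xc : Ex2 e2 d1 d2 (rayF N c).sub

section

variable {e0 e1 e2 d0 d1 d2 : MR G n} {V : G → Fin n → RR G} {a b c : ℕ → G}

/-- potentials of cocycles -/
theorem Dat.pot (D : Dat e0 e1 e2 d0 d1 d2 V N a b c) {M : Submodule (RR G) (Fn N)} {s : ℕ → G}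
    (hs : ∀ k, s k ∈ Subgroup.normalizer (N : Set G)) (hM : ∀ m ∈ M, Ev s 0 m) (φ : Fin n → Fn N)
    (hφ : ∀ i, φ i ∈ M) (h1 : col e1 φ = φ) (h2 : col d1 φ = 0) :
    ∃ f : Fn N, (∀ g : G, gof g • f - f = pr (V g) φ) ∧ ∀ g : G, gof g • f - f ∈ M := by
  obtain ⟨d, x, hx⟩ := D.fg
  let φ' : Fin n → M := fun i => ⟨φ i, hφ i⟩
  have h1' : col e1 φ' = φ' := by
    funext i
    apply Subtype.ext
    rw [col_coe]
    exact congrFun h1 i
  have h2' : col d1 φ' = 0 := by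
    funext i
    apply Subtype.ext
    rw [col_coe]
    exact congrFun h2 i
  obtain ⟨f, hf⟩ := exists_pot hs hM x hx (fun g => pr (V g) φ') ((D.V M).1 φ' h1' h2').1
  refine ⟨f, fun g => ?_, fun g => ?_⟩
  · rw [← hf, pr_coe]
  · rw [← hf]
    exact (pr (V g) φ').2

/-- cocycles with trivial potentials are coboundaries -/
theorem Dat.exact (D : Dat e0 e1 e2 d0 d1 d2 V N a b c) {M : Submodule (RR G) (Fn N)}
    (φ : Fin n → Fn N) (hφ : ∀ i, φ i ∈ M) (h1 : col e1 φ = φ) (h2 : col d1 φ = 0) {f : Fn N}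
    (hf : ∀ g : G, gof g • f - f = pr (V g) φ) {e : ℤ} (hfe : f - cst N e ∈ M) :
    ∃ θ : Fin n → Fn N, (∀ i, θ i ∈ M) ∧ col d0 θ = φ := by
  let φ' : Fin n → M := fun i => ⟨φ i, hφ i⟩
  have h1' : col e1 φ' = φ' := by
    funext i
    apply Subtype.ext
    rw [col_coe]
    exact congrFun h1 i
  have h2' : col d1 φ' = 0 := by
    funext i
    apply Subtype.ext
    rw [col_coe]
    exact congrFun h2 i
  obtain ⟨θ, hθ⟩ := ((D.V M).1 φ' h1' h2').2 ⟨⟨_, hfe⟩, fun g => by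
    apply Subtype.ext
    rw [pr_coe]
    change pr (V g) φ = gof g • (f - cst N e) - (f - cst N e)
    rw [gof_sub_cst, hf]⟩
  refine ⟨fun i => (θ i : Fn N), fun i => (θ i).2, ?_⟩
  funext i
  rw [← col_coe, hθ]

theorem eq_cst_of_inv {f : Fn N} (h : ∀ g : G, gof g • f = f) : ∃ e : ℤ, f = cst N e := by
  refine ⟨f ((1 : G) : G ⧸ N), fn_ext fun y => ?_⟩
  induction y using QuotientGroup.induction_on with
  | H a =>
    have h5 : (gof a • f) (a : G ⧸ N) = f (a : G ⧸ N) := by rw [h]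
    rw [gof_apply] at h5
    have h6 : a⁻¹ • (a : G ⧸ N) = ((1 : G) : G ⧸ N) := by
      change ((a⁻¹ * a : G) : G ⧸ N) = _
      rw [inv_mul_cancel]
    rw [h6] at h5
    rw [cst_apply, h5]

/-- the decomposition of almost invariant functions -/
theorem Dat.dec (D : Dat e0 e1 e2 d0 d1 d2 V N a b c) (χ : Fn N)
    (hχ : ∀ g : G, gof g • χ - χ ∈ (rayF N c).sub ⊔ (rayF N a).sub) :
    ∃ φ ψ : Fn N, (∀ g : G, gof g • φ - φ ∈ (rayF N a).sub ⊔ (rayF N b).sub) ∧
      (∀ g : G, gof g • ψ - ψ ∈ (rayF N b).sub ⊔ (rayF N c).sub) ∧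
      ∃ e : ℤ, χ = φ + ψ + cst N e := by
  obtain ⟨φ, hφ1, hφ2, ν, hν⟩ := (D.V ↥((rayF N c).sub ⊔ (rayF N a).sub)).2
    (fun g => ⟨gof g • χ - χ, hχ g⟩) (by
      intro g h
      apply Subtype.ext
      change gof (g * h) • χ - χ = (gof g • χ - χ) + gof g • (gof h • χ - χ)
      rw [gof_mul, mul_smul, smul_sub]
      abel)
  have hsum : ∀ i, ∃ y ∈ (rayF N c).sub, ∃ z ∈ (rayF N a).sub, y + z = (φ i : Fn N) :=
    fun i => Submodule.mem_sup.1 (φ i).2
  choose γ hγ α hα hγα using hsum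
  have hφc1 : col e1 (γ + α) = γ + α := by
    funext i
    have h1 : (γ + α) = fun j => (φ j : Fn N) := by
      funext j
      exact hγα j
    rw [h1, ← col_coe, hφ1]
  have hφc2 : col d1 (γ + α) = 0 := by
    funext i
    have h1 : (γ + α) = fun j => (φ j : Fn N) := by
      funext j
      exact hγα j
    rw [h1, ← col_coe, hφ2]
    rfl
  have hd : col d1 γ + col d1 α = 0 := by rw [← col_add, hφc2]
  obtain ⟨β, hβ, hβ1⟩ := D.xb (col d1 α) (by
      intro i
      apply ray_of_fin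
      refine fin_inf D.tri.ac (col_mem _ _ hα i) ?_
      have h1 : col d1 α i = -col d1 γ i := by
        rw [eq_neg_iff_add_eq_zero, add_comm]
        exact congrFun hd i
      rw [h1]
      exact Submodule.neg_mem _ (col_mem _ _ hγ i)) (by rw [← col_mul, D.low.e2d1])
    (by rw [← col_mul, D.d2d1, col_zero])
  let A : Fin n → Fn N := col e1 (α - β)
  let B : Fin n → Fn N := col e1 (γ + β)
  have hA : ∀ i, A i ∈ (rayF N a).sub ⊔ (rayF N b).sub := by
    refine col_mem _ _ fun i => ?_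
    exact Submodule.sub_mem _ (Submodule.mem_sup_left (hα i)) (Submodule.mem_sup_right (hβ i))
  have hB : ∀ i, B i ∈ (rayF N b).sub ⊔ (rayF N c).sub := by
    refine col_mem _ _ fun i => ?_
    exact Submodule.add_mem _ (Submodule.mem_sup_right (hγ i)) (Submodule.mem_sup_left (hβ i))
  have hA1 : col e1 A = A := by
    change col e1 (col e1 _) = col e1 _
    rw [← col_mul, D.low.ee1]
  have hB1 : col e1 B = B := by
    change col e1 (col e1 _) = col e1 _
    rw [← col_mul, D.low.ee1]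
  have hA2 : col d1 A = 0 := by
    change col d1 (col e1 _) = 0
    rw [← col_mul, D.low.d1e1, col_sub, hβ1, sub_self]
  have hB2 : col d1 B = 0 := by
    change col d1 (col e1 _) = 0
    rw [← col_mul, D.low.d1e1, col_add, hβ1, hd]
  have hAB : A + B = γ + α := by
    change col e1 _ + col e1 _ = _
    rw [← col_add, ← hφc1]
    congr 1
    abel
  obtain ⟨fA, hfA, hfA'⟩ := D.pot D.nc (ev_sup D.tri.ca D.tri.cb) A hA hA1 hA2
  obtain ⟨fB, hfB, hfB'⟩ := D.pot D.na (ev_sup D.tri.ab D.tri.ac) B hB hB1 hB2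
  obtain ⟨νc, hνc, νa, hνa, hν'⟩ := Submodule.mem_sup.1 ν.2
  obtain ⟨e, he⟩ := eq_cst_of_inv (f := χ + (ν : Fn N) - (fA + fB)) (by
    intro g
    have h1 := congrArg Subtype.val (hν g)
    rw [pr_coe] at h1
    have h2 : (fun j => (φ j : Fn N)) = A + B := by
      rw [hAB]
      funext j
      exact (hγα j).symm
    rw [h2, pr_add', ← hfA, ← hfB] at h1
    have h1 : (gof g • fA - fA) + (gof g • fB - fB) =
      (gof g • χ - χ) + (gof g • (ν : Fn N) - (ν : Fn N)) := h1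
    rw [smul_sub, smul_add, smul_add, ← sub_eq_zero]
    have h3 : gof g • χ + gof g • (ν : Fn N) - (gof g • fA + gof g • fB) -
        (χ + (ν : Fn N) - (fA + fB)) = ((gof g • χ - χ) + (gof g • (ν : Fn N) - (ν : Fn N))) -
        ((gof g • fA - fA) + (gof g • fB - fB)) := by abel
    rw [h3, h1, sub_self])
  refine ⟨fA - νa, fB - νc, fun g => ?_, fun g => ?_, e, ?_⟩
  · have h1 : gof g • (fA - νa) - (fA - νa) = (gof g • fA - fA) - (gof g • νa - νa) := by
      rw [smul_sub]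
      abel
    rw [h1]
    exact Submodule.sub_mem _ (hfA' g) (Submodule.mem_sup_left
      (Submodule.sub_mem _ (Submodule.smul_mem _ _ hνa) hνa))
  · have h1 : gof g • (fB - νc) - (fB - νc) = (gof g • fB - fB) - (gof g • νc - νc) := by
      rw [smul_sub]
      abel
    rw [h1]
    exact Submodule.sub_mem _ (hfB' g) (Submodule.mem_sup_right
      (Submodule.sub_mem _ (Submodule.smul_mem _ _ hνc) hνc))
  · rw [← he, ← hν']
    abel

/-- The second cohomology with coefficients in the functions with finite support has rank at most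
one. -/
theorem Dat.rank_le_one (D : Dat e0 e1 e2 d0 d1 d2 V N a b c) (z₁ z₂ : Fin n → Fn N)
    (f₁ : ∀ i, (supp (z₁ i)).Finite) (f₂ : ∀ i, (supp (z₂ i)).Finite)
    (a₁ : col e2 z₁ = z₁) (a₂ : col e2 z₂ = z₂) (b₁ : col d2 z₁ = 0) (b₂ : col d2 z₂ = 0) :
    ∃ p q : ℤ, (p ≠ 0 ∨ q ≠ 0) ∧ ∃ u : Fin n → Fn N, (∀ i, (supp (u i)).Finite) ∧
      col d1 u = p • z₁ + q • z₂ := by
  have key : ∀ z : Fin n → Fn N, (∀ i, (supp (z i)).Finite) → col e2 z = z → col d2 z = 0 →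
      ∃ x y : Fin n → Fn N, (∀ i, x i ∈ (rayF N c).sub) ∧ (∀ i, y i ∈ (rayF N a).sub) ∧
        col d1 x = z ∧ col d1 y = z ∧ ∃ χ : Fn N, (∀ g : G, gof g • χ - χ = pr (V g) (col e1 (x - y))) ∧
        ∀ g : G, gof g • χ - χ ∈ (rayF N c).sub ⊔ (rayF N a).sub := by
    intro z hz h1 h2
    obtain ⟨x, hx, hx1⟩ := D.xc z (fun i => ray_of_fin (hz i) c) h1 h2
    obtain ⟨y, hy, hy1⟩ := D.xa z (fun i => ray_of_fin (hz i) a) h1 h2
    obtain ⟨χ, hχ, hχ'⟩ := D.pot (M := (rayF N c).sub ⊔ (rayF N a).sub) D.nb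
      (ev_sup D.tri.bc D.tri.ba) (col e1 (x - y)) (col_mem _ _ fun i =>
        Submodule.sub_mem _ (Submodule.mem_sup_left (hx i)) (Submodule.mem_sup_right (hy i)))
      (by rw [← col_mul, D.low.ee1])
      (by rw [← col_mul, D.low.d1e1, col_sub, hx1, hy1, sub_self])
    exact ⟨x, y, hx, hy, hx1, hy1, χ, hχ, hχ'⟩
  obtain ⟨x₁, y₁, hx₁, hy₁, dx₁, dy₁, χ₁, hχ₁, hχ₁'⟩ := key z₁ f₁ a₁ b₁
  obtain ⟨x₂, y₂, hx₂, hy₂, dx₂, dy₂, χ₂, hχ₂, hχ₂'⟩ := key z₂ f₂ a₂ b₂
  obtain ⟨p, q, e, ω, hpq, hω, hmem⟩ := dependent D.tri D.dec χ₁ χ₂ hχ₁' hχ₂'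
  let x : Fin n → Fn N := p • x₁ + q • x₂
  let y : Fin n → Fn N := p • y₁ + q • y₂
  have hx : ∀ i, x i ∈ (rayF N c).sub := fun i =>
    Submodule.add_mem _ (zsmul_mem (hx₁ i) p) (zsmul_mem (hx₂ i) q)
  have hy : ∀ i, y i ∈ (rayF N a).sub := fun i =>
    Submodule.add_mem _ (zsmul_mem (hy₁ i) p) (zsmul_mem (hy₂ i) q)
  have hdx : col d1 x = p • z₁ + q • z₂ := by
    change col d1 (p • x₁ + q • x₂) = _
    rw [col_add, col_zsmul, col_zsmul, dx₁, dx₂]
  have hdy : col d1 y = p • z₁ + q • z₂ := by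
    change col d1 (p • y₁ + q • y₂) = _
    rw [col_add, col_zsmul, col_zsmul, dy₁, dy₂]
  have hxy : x - y = p • (x₁ - y₁) + q • (x₂ - y₂) := by
    change (p • x₁ + q • x₂) - (p • y₁ + q • y₂) = _
    rw [smul_sub, smul_sub]
    abel
  -- the part which comes from the ray `c`
  obtain ⟨κ', hκ1', hκ2', ν, hν⟩ := (D.V ↥(rayF N c).sub).2 (fun g => ⟨gof g • ω - ω, hω g⟩) (by
      intro g h
      apply Subtype.ext
      change gof (g * h) • ω - ω = (gof g • ω - ω) + gof g • (gof h • ω - ω)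
      rw [gof_mul, mul_smul, smul_sub]
      abel)
  let κ : Fin n → Fn N := fun i => (κ' i : Fn N)
  have hκ : ∀ i, κ i ∈ (rayF N c).sub := fun i => (κ' i).2
  have hκ1 : col e1 κ = κ := by
    funext i
    change col e1 (fun j => (κ' j : Fn N)) i = (κ' i : Fn N)
    rw [← col_coe, hκ1']
  have hκ2 : col d1 κ = 0 := by
    funext i
    change col d1 (fun j => (κ' j : Fn N)) i = 0
    rw [← col_coe, hκ2']
    rfl
  have hκν : ∀ g, pr (V g) κ = (gof g • ω - ω) + (gof g • (ν : Fn N) - (ν : Fn N)) := by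
    intro g
    have h1 := congrArg Subtype.val (hν g)
    rw [pr_coe] at h1
    exact h1
  obtain ⟨θ, hθ, hθ'⟩ := D.exact (M := (rayF N c).sub ⊔ (rayF N a).sub) (col e1 (x - y) - κ)
    (fun i => Submodule.sub_mem _ (col_mem _ _ (fun i =>
        Submodule.sub_mem _ (Submodule.mem_sup_left (hx i)) (Submodule.mem_sup_right (hy i))) i)
        (Submodule.mem_sup_left (hκ i)))
      (by rw [col_sub, ← col_mul, D.low.ee1, hκ1])
      (by rw [col_sub, ← col_mul, D.low.d1e1, col_sub, hdx, hdy, hκ2, sub_self, sub_zero])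
      (f := p • χ₁ + q • χ₂ - ω - (ν : Fn N)) (by
        intro g
        rw [pr_sub', hκν, hxy, col_add, col_zsmul, col_zsmul, pr_add', pr_zsmul, pr_zsmul, ← hχ₁,
          ← hχ₂, smul_sub, smul_sub, smul_add,
          smul_comm (gof g) p, smul_comm (gof g) q, smul_sub, smul_sub]
        abel) (e := e) (by
        have h1 : p • χ₁ + q • χ₂ - ω - (ν : Fn N) - cst N e =
          (p • χ₁ + q • χ₂ - cst N e - ω) - (ν : Fn N) := by abel
        rw [h1]
        exact Submodule.sub_mem _ hmem (Submodule.mem_sup_left ν.2))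
  choose θc hθc θa hθa hθs using fun i => Submodule.mem_sup.1 (hθ i)
  have hθ2 : col d0 θc + col d0 θa = col e1 x - col e1 y - κ := by
    rw [← col_add, ← col_sub, ← hθ']
    congr 1
    funext i
    exact hθs i
  have hu : col e1 x - κ - col d0 θc = col e1 y + col d0 θa := by
    rw [sub_eq_iff_eq_add, sub_eq_iff_eq_add]
    have h1 : col e1 x = (col e1 x - col e1 y - κ) + col e1 y + κ := by abel
    rw [h1, ← hθ2]
    abel
  refine ⟨p, q, hpq, col e1 x - κ - col d0 θc, fun i => ?_, ?_⟩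
  · refine fin_inf D.tri.ac ?_ ?_
    · rw [hu]
      exact Submodule.add_mem _ (col_mem _ _ hy i) (col_mem _ _ hθa i)
    · exact Submodule.sub_mem _ (Submodule.sub_mem _ (col_mem _ _ hx i) (hκ i)) (col_mem _ _ hθc i)
  · rw [col_sub, col_sub, ← col_mul, ← col_mul, D.low.d1e1, D.low.dd, col_zero, hκ2, sub_zero,
      sub_zero, hdx]

end

end

end Pool.Agent.J4H59.PH
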