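import Pool.Agent.J4H59.PH.Main
import Pool.Agent.J4H28.PH.Ray
import Pool.Agent.J4H73.PH.Free
import Pool.Agent.J4H73.PH.Grp

/-!
# Normalisers of free subgroups of `PD_3`-groups: the final form
-/

set_option autoImplicit false

namespace Pool.Agent.J4H59.PH

open Pool.Agent.Helper386.PD3 Pool.Agent.Helper158

variable {G : Type} [Group G] {P : ℕ → Type} [∀ i, AddCommGroup (P i)]
  [∀ i, Module (MonoidAlgebra ℤ G) (P i)] {d : ∀ i, P (i + 1) →ₗ[MonoidAlgebra ℤ G] P i}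
  {ε : P 0 →+ ℤ}

theorem fin_U (hR : Reso P d ε) (m : ℕ) (hm : ∀ i, m < i → Subsingleton (P i))
    [∀ i, Module.Finite (MonoidAlgebra ℤ G) (P i)]
    [∀ i, Module.Projective (MonoidAlgebra ℤ G) (P i)]
    (hcoh : ∀ i, i ≠ 3 → Subsingleton (groupCohomology (Rep.leftRegular ℤ G) i))
    (htop : Nonempty (groupCohomology (Rep.leftRegular ℤ G) 3 ≃+ ℤ))
    (N : Subgroup G) (hfree : IsFreeGroup N) (hfg : N.FG) (hnc : ∃ a ∈ N, ∃ b ∈ N, a * b ≠ b * a)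
    (H : Subgroup G) (hH : H ≠ ⊤ → H.FG) (hNH : N ≤ H)
    (hHN : H ≤ Subgroup.normalizer (N : Set G)) (t : G) (htH : t ∈ H)
    (ht : ∀ k : ℤ, k ≠ 0 → t ^ k ∉ N) : (N ⊔ Subgroup.zpowers t).relIndex H ≠ 0 :=
  main_U Pool.Agent.J4H28.PH.t_RAY Pool.Agent.J4H73.PH.t_FREE Pool.Agent.J4H73.PH.t_GRP hR m hm
    hcoh htop N hfree hfg hnc H hH hNH hHN t htH ht

end Pool.Agent.J4H59.PH
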