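import Pool.Agent.J4H59.PH.Fin

/-!
# Finitely generated free normal subgroups of subgroups of `PD_3`-groups

Let `N` be a finitely generated free subgroup of a `PD_3`-group `G` which is not commutative, and
let `H` be a finitely generated subgroup of `G` in which `N` is normal.  We show: if an element `t`
of `H` has infinite order modulo `N`, then `N` and `t` generate a subgroup of finite index in `H`.
So `H/N` is finite, or virtually infinite cyclic, or a torsion group, and a `PD_3`-group contains no
semidirect product `F ⋊ F'` or `F ⋊ ℤ²` of finitely generated free groups `F`, `F'` which are not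
cyclic.

The proof: one may assume that `N` is orientable.  Consider the functions on `G/N` with finite
support, and those with support in finitely many translates of one of three rays in `H/N`, the
positive and the negative powers of `t` and a ray in the Schreier graph of `H` modulo `N⟨t⟩`.  By
Poincaré duality and a pushing argument the second cohomology of `G` with coefficients in the latter
vanishes.  As `N` is free the first cohomology with coefficients in the functions with finite
support vanishes, and by a base change to Laurent series so it does for the functions near the first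
two rays.  Hence every class in the second cohomology `E` with coefficients in the functions with
finite support comes from a function which is almost invariant up to functions near two of the
rays, by a Mayer-Vietoris argument, for each pair of rays.  Almost invariant functions form a ring.
Comparing the products of such functions for the three pairs of rays, one finds that any two classes
in `E` are linearly dependent.  On the other hand `E` is the first homology of `N`, which has rank at
least two, as the pairing with characters of `N` shows.
-/

namespace Pool.Agent.J4H59.PH.FreeNormalised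

/-- `G` is a Poincaré duality group of dimension `n`: the trivial module `ℤ` has a resolution of
finite length by finitely generated projective `ℤ[G]`-modules (type `FP`), `H^i(G; ℤ[G]) = 0` for
`i ≠ n`, and `H^n(G; ℤ[G])` is isomorphic to `ℤ` as an abelian group. -/
def IsPD (n : ℕ) (G : Type) [Group G] : Prop :=
  (∃ (P : ℕ → Type) (_ : ∀ i, AddCommGroup (P i)) (_ : ∀ i, Module (MonoidAlgebra ℤ G) (P i))
    (d : ∀ i, P (i + 1) →ₗ[MonoidAlgebra ℤ G] P i) (ε : P 0 →+ ℤ) (m : ℕ),
    (∀ i, Module.Finite (MonoidAlgebra ℤ G) (P i)) ∧
    (∀ i, Module.Projective (MonoidAlgebra ℤ G) (P i)) ∧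
    (∀ i, m < i → Subsingleton (P i)) ∧
    Function.Surjective ε ∧
    (∀ (g : G) (x : P 0), ε (MonoidAlgebra.of ℤ G g • x) = ε x) ∧
    (∀ x : P 0, ε x = 0 ↔ x ∈ LinearMap.range (d 0)) ∧
    (∀ (i : ℕ) (x : P (i + 1)), d i x = 0 ↔ x ∈ LinearMap.range (d (i + 1)))) ∧
  (∀ i : ℕ, i ≠ n → Subsingleton (groupCohomology (Rep.leftRegular ℤ G) i)) ∧
  Nonempty (groupCohomology (Rep.leftRegular ℤ G) n ≃+ ℤ)

/-- Let `N` be a finitely generated free subgroup of the `PD_3`-group `G` which is not commutative,
and let `H` be a subgroup of `G` which contains `N` and normalises `N`, and which is finitely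
generated or the whole group.  If `t` is an element of `H` no nontrivial power of which is in `N`,
then `N` and `t` generate a subgroup of finite index in `H`. -/
theorem result (G : Type) [Group G] (hG : IsPD 3 G) (N : Subgroup G) (hfree : IsFreeGroup N)
    (hfg : N.FG) (hnc : ∃ a ∈ N, ∃ b ∈ N, a * b ≠ b * a)
    (H : Subgroup G) (hH : H ≠ ⊤ → H.FG) (hNH : N ≤ H)
    (hHN : H ≤ Subgroup.normalizer (N : Set G)) (t : G) (htH : t ∈ H)
    (ht : ∀ k : ℤ, k ≠ 0 → t ^ k ∉ N) : (N ⊔ Subgroup.zpowers t).relIndex H ≠ 0 := by
  obtain ⟨⟨P, i1, i2, d, ε, m, hfin, hproj, hm, hsurj, hequi, hex0, hex⟩, hcoh, htop⟩ := hG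
  exact Pool.Agent.J4H59.PH.fin_U (P := P) (d := d) (ε := ε) ⟨hsurj, hequi, hex0, hex⟩ m hm hcoh htop N
    hfree hfg hnc H hH hNH hHN t htH ht

end Pool.Agent.J4H59.PH.FreeNormalised
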