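import Pool.Agent.J4H59.PD.Geo

/-!
# Geodesic rays in coset spaces of infinite index
-/

set_option autoImplicit false

open scoped Classical

namespace Pool.Agent.J4H59.PH

open Pool.Agent.J4H59.PD

variable {Q : Type} [Group Q] {K : Subgroup Q} {S : Finset Q}

theorem exists_levQ (h1 : 1 ∈ S) (hi : ∀ s ∈ S, s⁻¹ ∈ S)
    (hS : Subgroup.closure (S : Set Q) = ⊤) (x : Q ⧸ K) :
    ∃ n, ∃ b ∈ Bl S n, x = (b : Q ⧸ K) := by
  induction x using QuotientGroup.induction_on with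
  | H a =>
    obtain ⟨n, hn⟩ := exists_Bl h1 hi hS a
    exact ⟨n, a, hn, rfl⟩

/-- the distance from the base point -/
noncomputable def lvl (S : Finset Q) (K : Subgroup Q) (x : Q ⧸ K) : ℕ :=
  if h : ∃ n, ∃ b ∈ Bl S n, x = (b : Q ⧸ K) then Nat.find h else 0

section

variable (h1 : 1 ∈ S) (hi : ∀ s ∈ S, s⁻¹ ∈ S) (hS : Subgroup.closure (S : Set Q) = ⊤)

include h1 hi hS

theorem lvl_spec (x : Q ⧸ K) : ∃ b ∈ Bl S (lvl S K x), x = (b : Q ⧸ K) := by
  have h := exists_levQ h1 hi hS x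
  have h2 : lvl S K x = Nat.find h := dif_pos h
  rw [h2]
  exact Nat.find_spec h

theorem lvl_le {x : Q ⧸ K} {n : ℕ} {b : Q} (hb : b ∈ Bl S n) (hx : x = (b : Q ⧸ K)) :
    lvl S K x ≤ n := by
  have h := exists_levQ h1 hi hS x
  have h2 : lvl S K x = Nat.find h := dif_pos h
  rw [h2]
  exact Nat.find_min' h ⟨b, hb, hx⟩

theorem lvl_smul_le {n : ℕ} {b : Q} (hb : b ∈ Bl S n) (x : Q ⧸ K) :
    lvl S K (b • x) ≤ n + lvl S K x := by
  obtain ⟨c, hc, hx⟩ := lvl_spec h1 hi hS x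
  refine lvl_le h1 hi hS (Bl_mul hb hc) ?_
  conv_lhs => rw [hx]
  rfl

theorem le_lvl_smul {n : ℕ} {b : Q} (hb : b ∈ Bl S n) (x : Q ⧸ K) :
    lvl S K x ≤ n + lvl S K (b • x) := by
  have := lvl_smul_le h1 hi hS (Bl_inv hi hb) (b • x)
  rwa [inv_smul_smul] at this

/-- the descendants of a vertex -/
def Desc (S : Finset Q) (K : Subgroup Q) (x : Q ⧸ K) : Set (Q ⧸ K) :=
  {y | ∃ m, ∃ b ∈ Bl S m, y = b • x ∧ lvl S K y = lvl S K x + m}

theorem desc_step {x : Q ⧸ K} (hx : (Desc S K x).Infinite) :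
    ∃ s ∈ S, lvl S K (s • x) = lvl S K x + 1 ∧ (Desc S K (s • x)).Infinite := by
  by_contra hcon
  push Not at hcon
  apply hx
  have hfin : (⋃ s ∈ S, if lvl S K (s • x) = lvl S K x + 1 then Desc S K (s • x) else ∅).Finite := by
    refine Set.Finite.biUnion S.finite_toSet fun s hs => ?_
    split_ifs with h
    · exact Set.not_infinite.1 (fun h' => absurd h' (by simpa using hcon s hs h))
    · exact Set.finite_empty
  refine (hfin.insert x).subset ?_
  rintro y ⟨m, b, hb, rfl, hy⟩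
  cases m with
  | zero =>
    have hb : b = 1 := hb
    rw [hb, one_smul]
    exact Set.mem_insert _ _
  | succ m =>
    obtain ⟨c, hc, s, hs, rfl⟩ := Bl_right hb
    refine Set.mem_insert_of_mem _ (Set.mem_iUnion₂.2 ⟨s, hs, ?_⟩)
    have h2 : (c * s) • x = c • s • x := mul_smul _ _ _
    rw [h2] at hy ⊢
    have h3 := lvl_smul_le h1 hi hS hc (s • x)
    have h4 := lvl_smul_le h1 hi hS (Bl_one hs) x
    have h5 : lvl S K (s • x) = lvl S K x + 1 := by omega
    rw [if_pos h5]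
    exact ⟨m, c, hc, rfl, by omega⟩

end

/-- Geodesic rays in coset spaces of infinite index. -/
theorem exists_sray (hfg : Group.FG Q) (hK : K.index = 0) :
    ∃ (S : Finset Q) (h st : ℕ → Q), (∀ k, st k ∈ S) ∧ (∀ k, h (k + 1) = st k * h k) ∧
      (∀ g : Q, ∃ J : ℕ, ∀ k l, ((g * h k : Q) : Q ⧸ K) = (h l : Q ⧸ K) →
        k ≤ l + J ∧ l ≤ k + J) ∧ ∀ k l, (h k : Q ⧸ K) = (h l : Q ⧸ K) → k = l := by
  obtain ⟨S0, hS0⟩ := Group.fg_def.1 hfg
  let S : Finset Q := insert 1 (S0 ∪ S0.image fun s => s⁻¹)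
  have h1 : 1 ∈ S := Finset.mem_insert_self _ _
  have hi : ∀ s ∈ S, s⁻¹ ∈ S := by
    intro s hs
    rcases Finset.mem_insert.1 hs with rfl | hs
    · rw [inv_one]
      exact h1
    · rcases Finset.mem_union.1 hs with hs | hs
      · exact Finset.mem_insert_of_mem (Finset.mem_union_right _ (Finset.mem_image_of_mem _ hs))
      · obtain ⟨t, ht, rfl⟩ := Finset.mem_image.1 hs
        rw [inv_inv]
        exact Finset.mem_insert_of_mem (Finset.mem_union_left _ ht)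
  have hS : Subgroup.closure (S : Set Q) = ⊤ := by
    rw [eq_top_iff, ← hS0]
    apply Subgroup.closure_mono
    intro s hs
    exact Finset.mem_insert_of_mem (Finset.mem_union_left _ hs)
  have hinf : Infinite (Q ⧸ K) := by
    by_contra hfin
    rw [not_infinite_iff_finite] at hfin
    exact Subgroup.index_ne_zero_of_finite hK
  have h0 : lvl S K ((1 : Q) : Q ⧸ K) = 0 :=
    Nat.le_zero.1 (lvl_le h1 hi hS (one_mem_Bl S) rfl)
  have hD0 : (Desc S K ((1 : Q) : Q ⧸ K)).Infinite := by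
    have h2 : Desc S K ((1 : Q) : Q ⧸ K) = Set.univ := by
      refine Set.eq_univ_of_forall fun y => ?_
      obtain ⟨b, hb, hy⟩ := lvl_spec h1 hi hS y
      refine ⟨lvl S K y, b, hb, ?_, by rw [h0, zero_add]⟩
      rw [hy]
      change _ = ((b * 1 : Q) : Q ⧸ K)
      rw [mul_one]
    rw [h2]
    exact Set.infinite_univ
  let T : Type := {a : Q // (Desc S K (a : Q ⧸ K)).Infinite}
  have hstep : ∀ a : T, ∃ s ∈ S, lvl S K ((s * a.1 : Q) : Q ⧸ K) = lvl S K (a.1 : Q ⧸ K) + 1 ∧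
      (Desc S K ((s * a.1 : Q) : Q ⧸ K)).Infinite := fun a => desc_step h1 hi hS a.2
  choose f hf1 hf2 hf3 using hstep
  let h : ℕ → T := fun k => Nat.rec (⟨1, hD0⟩ : T) (fun _ a => ⟨f a * a.1, hf3 a⟩) k
  have hh : ∀ k, (h (k + 1)).1 = f (h k) * (h k).1 := fun k => rfl
  have hl : ∀ k, lvl S K ((h k).1 : Q ⧸ K) = k := by
    intro k
    induction k with
    | zero => exact h0
    | succ k ih =>
      rw [hh, hf2, ih]
  refine ⟨S, fun k => (h k).1, fun k => f (h k), fun k => hf1 _, hh, fun g => ?_, fun k l hkl => ?_⟩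
  · obtain ⟨J, hJ⟩ := exists_Bl h1 hi hS g
    refine ⟨J, fun k l hkl => ?_⟩
    have h2 := lvl_smul_le h1 hi hS hJ ((h k).1 : Q ⧸ K)
    have h3 := le_lvl_smul h1 hi hS hJ ((h k).1 : Q ⧸ K)
    have h4 : g • ((h k).1 : Q ⧸ K) = ((h l).1 : Q ⧸ K) := hkl
    rw [h4, hl, hl] at h2 h3
    omega
  · have h2 : lvl S K ((h k).1 : Q ⧸ K) = lvl S K ((h l).1 : Q ⧸ K) := congrArg _ hkl
    rwa [hl, hl] at h2

end Pool.Agent.J4H59.PH
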