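import Pool.Agent.J4H59.PH.Dim
import Pool.Agent.J4H59.PH.SRay
import Pool.Agent.J4H59.PE.Asm
import Pool.Agent.J4H59.PD.LineC

/-!
# The three rays
-/

set_option autoImplicit false
set_option linter.unusedSectionVars false

open scoped Classical Matrix

namespace Pool.Agent.J4H59.PH

open Pool.Agent.Helper386.PD3 Pool.Agent.J4H59.PD Pool.Agent.J4H59.PE

noncomputable section

variable {G : Type} [Group G] {N : Subgroup G} {t : G}

theorem zz (hn : t ∈ Subgroup.normalizer (N : Set G)) (ht : ∀ k : ℤ, k ≠ 0 → t ^ k ∉ N)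
    {g g' : G} {z z' y y' : ℤ} (h1 : ((g * t ^ z : G) : G ⧸ N) = ((g' * t ^ z' : G) : G ⧸ N))
    (h2 : ((g * t ^ y : G) : G ⧸ N) = ((g' * t ^ y' : G) : G ⧸ N)) : z - z' = y - y' := by
  rw [QuotientGroup.eq] at h1 h2
  by_contra hne
  apply ht ((z - y) + (y' - z')) (by omega)
  have h3 := (Subgroup.mem_normalizer_iff.1 (Subgroup.zpow_mem _ hn (z - y)) _).1 h1
  have h4 := N.mul_mem (N.inv_mem h3) h2
  have h5 : (t ^ (z - y) * ((g * t ^ z)⁻¹ * (g' * t ^ z')) * (t ^ (z - y))⁻¹)⁻¹ *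
      ((g * t ^ y)⁻¹ * (g' * t ^ y')) = t ^ ((z - y) + (y' - z')) := by
    group
  rwa [h5] at h4

theorem zz' (hn : t ∈ Subgroup.normalizer (N : Set G)) (ht : ∀ k : ℤ, k ≠ 0 → t ^ k ∉ N)
    {g : G} {k l : ℕ} (h1 : ((g * t ^ k : G) : G ⧸ N) = ((g * t ^ l : G) : G ⧸ N)) : k = l := by
  have h2 : ((g * t ^ (k : ℤ) : G) : G ⧸ N) = ((g * t ^ (l : ℤ) : G) : G ⧸ N) := by
    rw [zpow_natCast, zpow_natCast]
    exact h1
  have h3 := zz hn ht h2 (rfl : ((g * t ^ (0 : ℤ) : G) : G ⧸ N) = ((g * t ^ (0 : ℤ) : G) : G ⧸ N))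
  omega

/-- the ray of powers -/
def powRay (hn : t ∈ Subgroup.normalizer (N : Set G)) (ht : ∀ k : ℤ, k ≠ 0 → t ^ k ∉ N) :
    Ray N where
  h k := t ^ k
  st _ := t
  S := {t}
  hst _ := Finset.mem_singleton_self t
  hS s hs := by
    rw [Finset.mem_singleton.1 hs]
    exact hn
  hh k := pow_succ' t k
  hn k := Subgroup.pow_mem _ hn k
  hj g := by
    by_cases hex : ∃ k l : ℕ, g • ((t ^ k : G) : G ⧸ N) = ((t ^ l : G) : G ⧸ N)
    · obtain ⟨k0, l0, h0⟩ := hex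
      refine ⟨k0 + l0, fun k l hkl => ?_⟩
      have h1 : ∀ k l : ℕ, g • ((t ^ k : G) : G ⧸ N) = ((t ^ l : G) : G ⧸ N) →
          ((g * t ^ (k : ℤ) : G) : G ⧸ N) = ((1 * t ^ (l : ℤ) : G) : G ⧸ N) := by
        intro k l h
        rw [zpow_natCast, zpow_natCast, one_mul]
        exact h
      have h2 := zz hn ht (h1 _ _ hkl) (h1 _ _ h0)
      omega
    · exact ⟨0, fun k l hkl => absurd ⟨k, l, hkl⟩ hex⟩
  hinj k l hkl := by
    refine zz' hn ht (g := 1) ?_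
    rw [one_mul, one_mul]
    exact hkl

theorem pu_self (y : G ⧸ N) : pu N y = y := mk_rp y

theorem LR_eq (r : Ray N) : (LR (le_refl N) r.R).sub = (rayF N r.h).sub := by
  refine Submodule.ext fun f => ?_
  constructor
  · rintro ⟨-, T, hT⟩
    refine ⟨T, fun y hy => ?_⟩
    obtain ⟨g, hg, k, hk⟩ := hT y hy
    refine ⟨g, hg, k, ?_⟩
    have hk : (r.h k : G ⧸ N) = g⁻¹ • pu N y := hk
    rw [pu_self, eq_inv_smul_iff] at hk
    rw [← hk]
    rfl
  · rintro ⟨T, hT⟩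
    refine ⟨fun c => (Set.finite_singleton c).subset ?_, T, fun y hy => ?_⟩
    · rintro y ⟨-, hy⟩
      rw [pu_self] at hy
      exact hy
    · obtain ⟨g, hg, k, hk⟩ := hT y hy
      refine ⟨g, hg, k, ?_⟩
      change (r.h k : G ⧸ N) = g⁻¹ • pu N y
      rw [pu_self, eq_inv_smul_iff, hk]
      rfl

theorem famP_eq (hn : t ∈ Subgroup.normalizer (N : Set G)) (ht : ∀ k : ℤ, k ≠ 0 → t ^ k ∉ N) :
    (mkLv (A := N) (t := t) hn le_rfl ht).famP.sub = (rayF N fun k => t ^ k).sub := by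
  set v := mkLv (A := N) (t := t) hn le_rfl ht with hv
  have hx : ∀ a : G, (a : G ⧸ N) =
      ((rp (a : G ⧸ (N ⊔ Subgroup.zpowers t)) * t ^ (v.L (a : G ⧸ N)) : G) : G ⧸ N) := by
    intro a
    have h1 := lv_spec (t := t) hn (le_refl N) a
    have h2 : v.L (a : G ⧸ N) = lv hn N (a : G ⧸ N) := rfl
    rw [h2]
    generalize lv hn N (a : G ⧸ N) = k at h1 ⊢
    unfold IsLev at h1
    rw [eq_comm, QuotientGroup.eq]
    have h3 := (Subgroup.mem_normalizer_iff.1 (Subgroup.inv_mem _ (Subgroup.zpow_mem _ hn k)) _).1 h1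
    have h4 : (t ^ k)⁻¹ * ((rp (a : G ⧸ (N ⊔ Subgroup.zpowers t)))⁻¹ * a * t ^ (-k)) * (t ^ k)⁻¹⁻¹ =
        (rp (a : G ⧸ (N ⊔ Subgroup.zpowers t)) * t ^ k)⁻¹ * a := by
      rw [inv_inv, zpow_neg, mul_inv_rev]
      group
    rwa [h4] at h3
  refine Submodule.ext fun f => ?_
  constructor
  · rintro ⟨⟨h1, -⟩, B, hB⟩
    refine ⟨h1.toFinset.image fun c => rp c * t ^ B, fun y hy => ?_⟩
    induction y using QuotientGroup.induction_on with
    | H a =>
      refine ⟨rp (v.π (a : G ⧸ N)) * t ^ B, Finset.mem_image_of_mem _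
        (h1.mem_toFinset.2 ⟨_, hy, rfl⟩), (v.L (a : G ⧸ N) - B).toNat, ?_⟩
      have h2 := hB _ hy
      have h3 : v.π (a : G ⧸ N) = (a : G ⧸ (N ⊔ Subgroup.zpowers t)) := pj_mk le_rfl a
      conv_lhs => rw [hx a]
      change _ = ((rp (v.π (a : G ⧸ N)) * t ^ B * t ^ (v.L (a : G ⧸ N) - B).toNat : G) : G ⧸ N)
      rw [h3, mul_assoc, ← zpow_natCast, Int.toNat_of_nonneg (by omega), ← zpow_add,
        add_sub_cancel]
  · rintro ⟨T, hT⟩
    have hL : ∀ (g : G) (k : ℕ), v.L ((g * t ^ k : G) : G ⧸ N) = v.L (g : G ⧸ N) + k := by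
      intro g k
      have h1 : IsLev N t (t ^ k) (k : ℤ) := by
        rw [← zpow_natCast]
        exact IsLev.zpow _
      exact lv_mul (A := N) hn le_rfl ht g h1 (Subgroup.pow_mem _
        ((le_sup_right : Subgroup.zpowers t ≤ _) (Subgroup.mem_zpowers t)) k)
    have hπ : ∀ (g : G) (k : ℕ), v.π ((g * t ^ k : G) : G ⧸ N) = (g : G ⧸ (N ⊔ Subgroup.zpowers t)) := by
      intro g k
      change pj N t N ((g * t ^ k : G) : G ⧸ N) = _
      rw [pj_mk le_rfl]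
      exact mk_mul_sup g (Subgroup.pow_mem _
        ((le_sup_right : Subgroup.zpowers t ≤ _) (Subgroup.mem_zpowers t)) k)
    refine ⟨⟨(T.finite_toSet.image fun g : G => (g : G ⧸ (N ⊔ Subgroup.zpowers t))).subset ?_,
      fun c k => ?_⟩, ?_⟩
    · rintro _ ⟨y, hy, rfl⟩
      obtain ⟨g, hg, k, hk⟩ := hT y hy
      refine ⟨g, hg, ?_⟩
      rw [hk]
      exact (hπ g k).symm
    · refine Set.Subsingleton.finite ?_
      rintro y ⟨-, hy1, hy2⟩ y' ⟨-, hy1', hy2'⟩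
      exact mkLv_inj hn ht y y' (hy1.trans hy1'.symm) (hy2.trans hy2'.symm)
    · obtain ⟨B, hB⟩ := (T.finite_toSet.image fun g : G => v.L (g : G ⧸ N)).bddBelow
      refine ⟨B, fun y hy => ?_⟩
      obtain ⟨g, hg, k, hk⟩ := hT y hy
      rw [hk, hL]
      have h1 : B ≤ v.L (g : G ⧸ N) := hB ⟨g, hg, rfl⟩
      omega

theorem stp_ray (r : Ray N) : Stp r.h := ⟨r.S, fun k => ⟨r.st k, r.hst k, r.hh k⟩⟩

theorem ex2_ray {n : ℕ} {w : G →* ℤˣ} {e0 e1 e2 e3 d0 d1 d2 : MR G n}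
    (h : Full w e0 e1 e2 e3 d0 d1 d2) (r : Ray N) {d : ℕ} (x : Fin d → G)
    (hx : Subgroup.closure (Set.range x) = N) :
    Ex2 (dgM w e1) (dgM w d1) (dgM w d0) (rayF N r.h).sub := by
  rw [← LR_eq]
  have h1 := rowExact_of_allDer h.low (r.allDer (le_refl N) (w := w) x hx)
  intro z hz hz1 hz0
  obtain ⟨u, hu⟩ := h1 (fun i => ⟨z i, hz i⟩) (by
      funext i
      apply Subtype.ext
      rw [col_coe]
      exact congrFun hz1 i) (by
      funext i
      apply Subtype.ext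
      rw [col_coe]
      exact congrFun hz0 i)
  refine ⟨fun i => (u i : Fn N), fun i => (u i).2, ?_⟩
  funext i
  rw [← col_coe, hu]

/-- the third ray -/
theorem exists_third {K H : Subgroup G} (hNK : N ≤ K) (hNH : N ≤ H)
    (hHN : H ≤ Subgroup.normalizer (N : Set G)) (hH : H.FG) (hinf : K.relIndex H = 0) :
    ∃ r : Ray N, ∀ k l, (r.h k : G ⧸ K) = (r.h l : G ⧸ K) → k = l := by
  have hfg : Group.FG H := (Group.fg_iff_subgroup_fg H).2 hH
  obtain ⟨S, h, st, hst, hh, hj, hinj⟩ := exists_sray (K := K.subgroupOf H) hfg hinf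
  have hcos : ∀ a b : H, ((a : G) : G ⧸ K) = ((b : G) : G ⧸ K) →
      (a : H ⧸ K.subgroupOf H) = (b : H ⧸ K.subgroupOf H) := by
    intro a b hab
    rw [QuotientGroup.eq] at hab ⊢
    exact hab
  refine ⟨{ h := fun k => (h k : G)
            st := fun k => (st k : G)
            S := S.image (fun s : H => (s : G))
            hst := fun k => Finset.mem_image_of_mem _ (hst k)
            hS := ?_
            hh := fun k => congrArg Subtype.val (hh k)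
            hn := fun k => hHN (h k).2
            hj := ?_
            hinj := ?_ }, fun k l hkl => hinj k l (hcos _ _ hkl)⟩
  · intro s hs
    obtain ⟨s', -, rfl⟩ := Finset.mem_image.1 hs
    exact hHN s'.2
  · intro g
    by_cases hg : g ∈ H
    · obtain ⟨J, hJ⟩ := hj ⟨g, hg⟩
      refine ⟨J, fun k l hkl => hJ k l (hcos _ _ ?_)⟩
      have hkl : ((g * h k : G) : G ⧸ N) = ((h l : G) : G ⧸ N) := hkl
      rw [QuotientGroup.eq] at hkl ⊢
      exact hNK hkl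
    · refine ⟨0, fun k l hkl => absurd ?_ hg⟩
      have hkl : ((g * h k : G) : G ⧸ N) = ((h l : G) : G ⧸ N) := hkl
      rw [QuotientGroup.eq] at hkl
      have h1 : g = h l * ((g * h k)⁻¹ * h l)⁻¹ * (h k : G)⁻¹ := by group
      rw [h1]
      exact H.mul_mem (H.mul_mem (h l).2 (H.inv_mem (hNH hkl))) (H.inv_mem (h k).2)
  · intro k l hkl
    refine hinj k l (hcos _ _ ?_)
    have hkl : ((h k : G) : G ⧸ N) = ((h l : G) : G ⧸ N) := hkl
    rw [QuotientGroup.eq] at hkl ⊢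
    exact hNK hkl

theorem finite_of_uniq {P : ℕ → Prop} {B : ℕ} (h : ∀ k, P k → k ≤ B) : {k | P k}.Finite :=
  (Set.finite_Iic B).subset fun k hk => h k hk

theorem dis_pow (hn : t ∈ Subgroup.normalizer (N : Set G)) (ht : ∀ k : ℤ, k ≠ 0 → t ^ k ∉ N) :
    Dis N (fun k => t ^ k) (fun k => t⁻¹ ^ k) ∧ Dis N (fun k => t⁻¹ ^ k) (fun k => t ^ k) := by
  constructor
  · intro g g'
    have h1 : ∀ k l : ℕ, ((g * t ^ k : G) : G ⧸ N) = ((g' * t⁻¹ ^ l : G) : G ⧸ N) →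
        ((g * t ^ (k : ℤ) : G) : G ⧸ N) = ((g' * t ^ (-(l : ℤ)) : G) : G ⧸ N) := by
      intro k l h
      rw [zpow_neg, zpow_natCast, zpow_natCast, ← inv_pow]
      exact h
    by_cases hex : ∃ k l : ℕ, ((g * t ^ k : G) : G ⧸ N) = ((g' * t⁻¹ ^ l : G) : G ⧸ N)
    · obtain ⟨k0, l0, h0⟩ := hex
      refine finite_of_uniq (B := k0 + l0) ?_
      rintro k ⟨l, hl⟩
      have h2 := zz hn ht (h1 _ _ hl) (h1 _ _ h0)
      omega
    · refine finite_of_uniq (B := 0) ?_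
      rintro k ⟨l, hl⟩
      exact absurd ⟨k, l, hl⟩ hex
  · intro g g'
    have h1 : ∀ k l : ℕ, ((g * t⁻¹ ^ k : G) : G ⧸ N) = ((g' * t ^ l : G) : G ⧸ N) →
        ((g * t ^ (-(k : ℤ)) : G) : G ⧸ N) = ((g' * t ^ (l : ℤ) : G) : G ⧸ N) := by
      intro k l h
      rw [zpow_neg, zpow_natCast, zpow_natCast, ← inv_pow]
      exact h
    by_cases hex : ∃ k l : ℕ, ((g * t⁻¹ ^ k : G) : G ⧸ N) = ((g' * t ^ l : G) : G ⧸ N)
    · obtain ⟨k0, l0, h0⟩ := hex
      refine finite_of_uniq (B := k0 + l0) ?_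
      rintro k ⟨l, hl⟩
      have h2 := zz hn ht (h1 _ _ hl) (h1 _ _ h0)
      omega
    · refine finite_of_uniq (B := 0) ?_
      rintro k ⟨l, hl⟩
      exact absurd ⟨k, l, hl⟩ hex

theorem dis_third (hn : t ∈ Subgroup.normalizer (N : Set G)) (ht : ∀ k : ℤ, k ≠ 0 → t ^ k ∉ N)
    {K : Subgroup G} (hNK : N ≤ K) (htK : t ∈ K) {c : ℕ → G}
    (hc : ∀ k l, (c k : G ⧸ K) = (c l : G ⧸ K) → k = l) :
    Dis N (fun k => t ^ k) c ∧ Dis N c (fun k => t ^ k) := by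
  have hK : ∀ (a b : G), (a : G ⧸ N) = (b : G ⧸ N) → (a : G ⧸ K) = (b : G ⧸ K) := by
    intro a b h
    rw [QuotientGroup.eq] at h ⊢
    exact hNK h
  have htk : ∀ (g : G) (k : ℕ), ((g * t ^ k : G) : G ⧸ K) = (g : G ⧸ K) := by
    intro g k
    rw [eq_comm, QuotientGroup.eq, inv_mul_cancel_left]
    exact K.pow_mem htK k
  have hsm : ∀ (g a b : G), ((g * a : G) : G ⧸ K) = ((g * b : G) : G ⧸ K) →
      (a : G ⧸ K) = (b : G ⧸ K) := by
    intro g a b h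
    rw [QuotientGroup.eq] at h ⊢
    have h1 : (g * a)⁻¹ * (g * b) = a⁻¹ * b := by group
    rwa [h1] at h
  constructor
  · intro g g'
    refine Set.Subsingleton.finite ?_
    rintro k ⟨l, hl⟩ k' ⟨l', hl'⟩
    have h1 := hK _ _ hl
    have h2 := hK _ _ hl'
    rw [htk] at h1 h2
    have h3 : l = l' := hc _ _ (hsm _ _ _ (h1.symm.trans h2))
    rw [← h3] at hl'
    exact zz' hn ht (hl.trans hl'.symm)
  · intro g g'
    refine Set.Subsingleton.finite ?_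
    rintro l ⟨k, hk⟩ l' ⟨k', hk'⟩
    have h1 := hK _ _ hk
    have h2 := hK _ _ hk'
    rw [htk] at h1 h2
    exact hc _ _ (hsm _ _ _ (h1.trans h2.symm))

end

end Pool.Agent.J4H59.PH
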