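import Pool.Agent.J4H59.PH.Jobs

/-!
# Derivations and columns
-/

set_option autoImplicit false
set_option linter.unusedSectionVars false
set_option linter.unusedTactic false

open scoped Classical Matrix

namespace Pool.Agent.J4H59.PH

open Pool.Agent.Helper386.PD3 Pool.Agent.J4H59.PD

noncomputable section

variable {G : Type} [Group G] {n : ℕ} {M : Type} [AddCommGroup M] [Module (RR G) M]

section

variable {e0 e1 e2 d0 d1 : MR G n} (hL : Low e0 e1 e2 d0 d1) {ε : (Fin n → RR G) →+ ℤ}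
  (hε : ∀ (g : G) (v : Fin n → RR G), ε (gof g • v) = ε v) {u0 : Fin n → RR G}
  (hu0 : u0 ᵥ* e0 = u0) (hεu0 : ε u0 = 1) (hεd : ∀ v, ε (v ᵥ* d0) = 0)
  (hεex : ∀ u, u ᵥ* e0 = u → ε u = 0 → ∃ v, v ᵥ* d0 = u)
  {V : G → Fin n → RR G} (hV0 : ∀ g, V g ᵥ* d0 = gof g • u0 - u0)

include hL hε hu0 hεu0 hεd hεex hV0

theorem der_of_col (φ : Fin n → M) (h1 : col e1 φ = φ) (h2 : col d1 φ = 0) :
    (∀ g h, pr (V (g * h)) φ = pr (V g) φ + gof g • pr (V h) φ) ∧
      ((∃ μ : M, ∀ g, pr (V g) φ = gof g • μ - μ) → ∃ θ : Fin n → M, col d0 θ = φ) := by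
  let pre : (Fin n → RR G) → (Fin n → RR G) := fun x =>
    if h : ∃ v, v ᵥ* d0 = x then h.choose else 0
  have hpre : ∀ v, pre (v ᵥ* d0) ᵥ* d0 = v ᵥ* d0 := by
    intro v
    have h : ∃ v', v' ᵥ* d0 = v ᵥ* d0 := ⟨v, rfl⟩
    change (if h : ∃ v', v' ᵥ* d0 = v ᵥ* d0 then h.choose else 0) ᵥ* d0 = v ᵥ* d0
    rw [dif_pos h]
    exact h.choose_spec
  let β : (Fin n → RR G) → M := fun x => pr (pre x) φ
  have hβ : ∀ v, β (v ᵥ* d0) = pr v φ := by
    intro v
    rw [← sub_eq_zero]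
    change pr (pre (v ᵥ* d0)) φ - pr v φ = 0
    rw [← pr_sub, ← h1, ← pr_vecMul]
    have h3 : ((pre (v ᵥ* d0) - v) ᵥ* e1) ᵥ* d0 = 0 := by
      rw [Matrix.vecMul_vecMul, hL.e1d0, Matrix.sub_vecMul, hpre, sub_self]
    obtain ⟨u, hu⟩ := hL.ex1 ((pre (v ᵥ* d0) - v) ᵥ* e1)
      (by rw [Matrix.vecMul_vecMul, hL.ee1]) h3
    rw [← hu, pr_vecMul, h2, pr_zero']
  have hβadd : ∀ x y, (∃ v, v ᵥ* d0 = x) → (∃ v, v ᵥ* d0 = y) → β (x + y) = β x + β y := by
    rintro _ _ ⟨v, rfl⟩ ⟨v', rfl⟩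
    rw [← Matrix.add_vecMul, hβ, hβ, hβ, pr_add]
  have hβsmul : ∀ (r : RR G) x, (∃ v, v ᵥ* d0 = x) → β (r • x) = r • β x := by
    rintro r _ ⟨v, rfl⟩
    rw [← Matrix.smul_vecMul, hβ, hβ, pr_smul]
  have hβneg : ∀ x, (∃ v, v ᵥ* d0 = x) → β (-x) = -β x := by
    intro x hx
    have := hβsmul (-1) x hx
    rw [neg_smul, one_smul, neg_smul, one_smul] at this
    exact this
  have hmem : ∀ g : G, ∃ v, v ᵥ* d0 = gof g • u0 - u0 := by
    intro g
    refine hεex _ ?_ ?_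
    · rw [Matrix.sub_vecMul, Matrix.smul_vecMul, hu0]
    · rw [map_sub, hε, sub_self]
  have hβV : ∀ g, β (gof g • u0 - u0) = pr (V g) φ := by
    intro g
    rw [← hV0, hβ]
  constructor
  · intro g h
    rw [← hβV, ← hβV, ← hβV]
    have e : gof (g * h) • u0 - u0 = (gof g • u0 - u0) + gof g • (gof h • u0 - u0) := by
      rw [gof_mul, mul_smul, smul_sub]
      abel
    rw [e, hβadd _ _ (hmem g), hβsmul _ _ (hmem h)]
    obtain ⟨v, hv⟩ := hmem h
    exact ⟨gof g • v, by rw [Matrix.smul_vecMul, hv]⟩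
  rintro ⟨μ, hμ'⟩
  have hμ : ∀ g, β (gof g • u0 - u0) = gof g • μ - μ := fun g => by rw [hβV, hμ']
  let F : (Fin n → RR G) → M := fun x => β (x - ε x • u0) + ε x • μ
  have hFmem : ∀ x, x ᵥ* e0 = x → ∃ v, v ᵥ* d0 = x - ε x • u0 := by
    intro x hx
    refine hεex _ ?_ ?_
    · rw [Matrix.sub_vecMul, hx]
      have : (ε x • u0) ᵥ* e0 = ε x • (u0 ᵥ* e0) := Matrix.smul_vecMul _ _ _
      rw [this, hu0]
    · rw [map_sub, map_zsmul, hεu0, smul_eq_mul, mul_one, sub_self]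
  have hFadd : ∀ x y, x ᵥ* e0 = x → y ᵥ* e0 = y → F (x + y) = F x + F y := by
    intro x y hx hy
    change β (x + y - ε (x + y) • u0) + ε (x + y) • μ = (β (x - ε x • u0) + ε x • μ) +
      (β (y - ε y • u0) + ε y • μ)
    have e : x + y - ε (x + y) • u0 = (x - ε x • u0) + (y - ε y • u0) := by
      rw [map_add, add_smul]
      abel
    rw [e, hβadd _ _ (hFmem x hx) (hFmem y hy), map_add, add_smul]
    abel
  have hFneg : ∀ x, x ᵥ* e0 = x → F (-x) = -F x := by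
    intro x hx
    change β (-x - ε (-x) • u0) + ε (-x) • μ = -(β (x - ε x • u0) + ε x • μ)
    have e : -x - ε (-x) • u0 = -(x - ε x • u0) := by
      rw [map_neg, neg_smul]
      abel
    rw [e, hβneg _ (hFmem x hx), map_neg, neg_smul]
    abel
  have hFg : ∀ (g : G) x, x ᵥ* e0 = x → F (gof g • x) = gof g • F x := by
    intro g x hx
    change β (gof g • x - ε (gof g • x) • u0) + ε (gof g • x) • μ =
      gof g • (β (x - ε x • u0) + ε x • μ)
    have e : gof g • x - ε (gof g • x) • u0 = gof g • (x - ε x • u0) +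
        (((ε x : ℤ) : RR G)) • (gof g • u0 - u0) := by
      rw [hε, smul_sub, smul_sub, Int.cast_smul_eq_zsmul, Int.cast_smul_eq_zsmul, smul_comm]
      abel
    obtain ⟨v, hv⟩ := hFmem x hx
    obtain ⟨v', hv'⟩ := hmem g
    rw [e, hβadd _ _ ⟨gof g • v, by rw [Matrix.smul_vecMul, hv]⟩
      ⟨(((ε x : ℤ) : RR G)) • v', by rw [Matrix.smul_vecMul, hv']⟩, hβsmul _ _ ⟨v, hv⟩,
      hβsmul _ _ ⟨v', hv'⟩, hμ, hε, smul_add, Int.cast_smul_eq_zsmul, smul_sub]
    have e2 : gof g • ε x • μ = ε x • gof g • μ := smul_comm _ _ _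
    rw [e2]
    abel
  have hFsmul : ∀ (r : RR G) x, x ᵥ* e0 = x → F (r • x) = r • F x := by
    intro r x hx
    induction r using rr_ind with
    | h1 g => exact hFg g x hx
    | h2 a b ha hb =>
      rw [add_smul, hFadd _ _ (by rw [Matrix.smul_vecMul, hx]) (by rw [Matrix.smul_vecMul, hx]),
        ha, hb, add_smul]
    | h3 a ha =>
      rw [neg_smul, hFneg _ (by rw [Matrix.smul_vecMul, hx]), ha, neg_smul]
  have hFd : ∀ v, F (v ᵥ* d0) = pr v φ := by
    intro v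
    change β (v ᵥ* d0 - ε (v ᵥ* d0) • u0) + ε (v ᵥ* d0) • μ = _
    rw [hεd, zero_smul, zero_smul, sub_zero, add_zero, hβ]
  have hrow : ∀ i, (e0 i) ᵥ* e0 = e0 i := by
    intro i
    funext j
    have := congrFun (congrFun hL.ee0 i) j
    exact this
  have hFsum : ∀ (s : Finset (Fin n)) (c : Fin n → RR G),
      F (∑ i ∈ s, c i • e0 i) = ∑ i ∈ s, c i • F (e0 i) ∧
        (∑ i ∈ s, c i • e0 i) ᵥ* e0 = ∑ i ∈ s, c i • e0 i := by
    intro s c
    induction s using Finset.induction_on with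
    | empty =>
      simp only [Finset.sum_empty]
      refine ⟨?_, Matrix.zero_vecMul _⟩
      have := hFsmul 0 0 (Matrix.zero_vecMul _)
      rw [zero_smul, zero_smul] at this
      exact this
    | insert a s ha ih =>
      rw [Finset.sum_insert ha, Finset.sum_insert ha]
      have h1 : (c a • e0 a) ᵥ* e0 = c a • e0 a := by rw [Matrix.smul_vecMul, hrow]
      refine ⟨?_, ?_⟩
      · rw [hFadd _ _ h1 ih.2, ih.1, hFsmul _ _ (hrow a)]
      · rw [Matrix.add_vecMul, h1, ih.2]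
  refine ⟨fun i => F (e0 i), ?_⟩
  funext i
  change ∑ j, d0 i j • F (e0 j) = φ i
  rw [← (hFsum Finset.univ (d0 i)).1]
  have h3 : ∑ j, d0 i j • e0 j = d0 i := by
    have h4 : (d0 i) ᵥ* e0 = ∑ j, d0 i j • e0 j := Matrix.vecMul_eq_sum _ _
    rw [← h4]
    have h5 : (d0 * e0) i = (d0 i) ᵥ* e0 := rfl
    rw [← h5, hL.d0e0]
  rw [h3]
  have h6 := hFd (Pi.single i 1)
  rw [Matrix.single_one_vecMul, pr_single] at h6
  exact h6


theorem col_of_der (δ : G → M)
    (hδ : ∀ g h, δ (g * h) = δ g + gof g • δ h) :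
    ∃ φ : Fin n → M, col e1 φ = φ ∧ col d1 φ = 0 ∧
      ∃ ν : M, ∀ g, pr (V g) φ = δ g + (gof g • ν - ν) := by
  have hδ' : IsDer (RingHom.id (RR G)) δ := hδ
  let ci : Fin n → ℤ := fun i => ε (Pi.single i 1)
  have hεc : ∀ v, ε v = ∑ i, eps (v i) * ci i := by
    intro v
    have h1 : v = ∑ i, v i • (Pi.single i (1 : RR G) : Fin n → RR G) := by
      funext k
      rw [Finset.sum_apply, Finset.sum_eq_single k]
      · simp
      · intro i _ hi
        rw [Pi.smul_apply, Pi.single_eq_of_ne (Ne.symm hi), smul_zero]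
      · intro h
        exact absurd (Finset.mem_univ k) h
    conv_lhs => rw [h1, map_sum]
    exact Finset.sum_congr rfl fun i _ => eps_eq hε _ _
  let f0 : (Fin n → RR G) → M := fun v => ∑ i, ci i • addR δ (v i)
  have hf0add : ∀ v v', f0 (v + v') = f0 v + f0 v' := by
    intro v v'
    change ∑ i, ci i • addR δ (v i + v' i) = ∑ i, ci i • addR δ (v i) + ∑ i, ci i • addR δ (v' i)
    rw [← Finset.sum_add_distrib]
    exact Finset.sum_congr rfl fun i _ => by rw [map_add, smul_add]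
  have hf0smul : ∀ (r : RR G) v, f0 (r • v) = r • f0 v + ε v • addR δ r := by
    intro r v
    change ∑ i, ci i • addR δ (r * v i) = r • ∑ i, ci i • addR δ (v i) + ε v • addR δ r
    rw [hεc, Finset.smul_sum, Finset.sum_smul, ← Finset.sum_add_distrib]
    refine Finset.sum_congr rfl fun i _ => ?_
    rw [hδ'.ext, RingHom.id_apply, smul_add, smul_comm r, smul_smul, mul_comm (ci i)]
  have hf0zero : f0 0 = 0 := by
    have := hf0add 0 0
    rw [add_zero] at this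
    simpa using this
  have hf0sum : ∀ (s : Finset (Fin n)) (F : Fin n → (Fin n → RR G)),
      f0 (∑ i ∈ s, F i) = ∑ i ∈ s, f0 (F i) := by
    intro s F
    induction s using Finset.induction_on with
    | empty => rw [Finset.sum_empty, Finset.sum_empty, hf0zero]
    | insert a s ha ih => rw [Finset.sum_insert ha, Finset.sum_insert ha, hf0add, ih]
  let φ : Fin n → M := fun i => f0 (d0 i)
  have hεd0 : ∀ i, ε (d0 i) = 0 := by
    intro i
    have := hεd (Pi.single i 1)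
    rwa [Matrix.single_one_vecMul] at this
  have hφ : ∀ v : Fin n → RR G, f0 (v ᵥ* d0) = pr v φ := by
    intro v
    have h1 : v ᵥ* d0 = ∑ i, v i • d0 i := Matrix.vecMul_eq_sum _ _
    rw [h1, hf0sum]
    refine Finset.sum_congr rfl fun i _ => ?_
    rw [hf0smul, hεd0, zero_smul, add_zero]
  refine ⟨φ, ?_, ?_, f0 u0, ?_⟩
  · funext i
    rw [col_apply, ← hφ (e1 i)]
    have : (e1 i) ᵥ* d0 = (e1 * d0) i := rfl
    rw [this, hL.e1d0]
  · funext i
    rw [col_apply, ← hφ (d1 i)]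
    have : (d1 i) ᵥ* d0 = (d1 * d0) i := rfl
    rw [this, hL.dd]
    exact hf0zero
  · intro g
    rw [← hφ, hV0]
    have h2 : f0 (gof g • u0 - u0) + f0 u0 = gof g • f0 u0 + δ g := by
      rw [← hf0add, sub_add_cancel, hf0smul, hεu0, one_smul, addR_of]
    have h3 : f0 (gof g • u0 - u0) = (f0 (gof g • u0 - u0) + f0 u0) - f0 u0 := by abel
    rw [h3, h2]
    abel

end

theorem t_VD : S_VD := by
  intro G _ n e0 e1 e2 d0 d1 hL
  obtain ⟨ε, hε, ⟨u0, hu0, hεu0⟩, hεd, hεex⟩ := hL.aug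
  have hmem : ∀ g : G, ∃ v, v ᵥ* d0 = gof g • u0 - u0 := by
    intro g
    refine hεex _ ?_ ?_
    · rw [Matrix.sub_vecMul, Matrix.smul_vecMul, hu0]
    · rw [map_sub, hε, sub_self]
  choose v hv using hmem
  have hV0 : ∀ g, (v g ᵥ* e1) ᵥ* d0 = gof g • u0 - u0 := by
    intro g
    rw [Matrix.vecMul_vecMul, hL.e1d0, hv]
  refine ⟨fun g => v g ᵥ* e1, u0, fun g => ?_, hV0, fun M _ _ => ⟨fun φ h1 h2 => ?_,
    fun δ hδ => ?_⟩⟩
  · rw [Matrix.vecMul_vecMul, hL.ee1]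
  · exact der_of_col hL hε hu0 hεu0 hεd hεex hV0 φ h1 h2
  · exact col_of_der hL hε hu0 hεu0 hεd hεex hV0 δ hδ

end

end Pool.Agent.J4H59.PH
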