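import Pool.Agent.J4H59.PH.Pair
import Pool.Agent.J4H59.PH.Rays
import Pool.Agent.J4H59.PH.Vd
import Pool.Agent.J4H59.PE.Fin1

/-!
# Normalisers of free subgroups of `PD_3`-groups
-/

set_option autoImplicit false
set_option linter.unusedSectionVars false

open scoped Classical Matrix

namespace Pool.Agent.J4H59.PH

open Pool.Agent.Helper386.PD3 Pool.Agent.J4H59.PD Pool.Agent.J4H59.PE Pool.Agent.Helper158

noncomputable section

variable {G : Type} [Group G] {N : Subgroup G} {t : G}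

theorem contra_U (hRAY : S_RAY) {n : ℕ} {w : G →* ℤˣ} {e0 e1 e2 e3 d0 d1 d2 : MR G n}
    (h : Full w e0 e1 e2 e3 d0 d1 d2) (hfree : AllDer (G := G) (famF N).sub)
    (hNw : ∀ a ∈ N, w a = 1) (hfg : N.FG) {x y : N} {l m : N →* Multiplicative ℤ}
    (hlx : l x = Multiplicative.ofAdd 1) (hly : l y = 1) (hmx : m x = 1)
    (hmy : m y = Multiplicative.ofAdd 1) (hn : t ∈ Subgroup.normalizer (N : Set G))
    (ht : ∀ k : ℤ, k ≠ 0 → t ^ k ∉ N) {H : Subgroup G} (hNH : N ≤ H)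
    (hHN : H ≤ Subgroup.normalizer (N : Set G)) (hH : H.FG)
    (hinf : (N ⊔ Subgroup.zpowers t).relIndex H = 0) : False := by
  -- generators
  obtain ⟨d, x0, hcl⟩ := exists_gens hfg
  have hx0 : Subgroup.closure (Set.range fun i => (x0 i : G)) = N := by
    have h1 : (Set.range fun i => (x0 i : G)) = N.subtype '' (Set.range x0) := by
      rw [← Set.range_comp]
      rfl
    rw [h1, ← MonoidHom.map_closure, hcl, ← MonoidHom.range_eq_map, Subgroup.range_subtype]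
  -- the resolution
  obtain ⟨V, u0, -, -, hVM⟩ := t_VD G n _ _ _ _ _ h.colow
  -- the inverse
  have hn' : t⁻¹ ∈ Subgroup.normalizer (N : Set G) := Subgroup.inv_mem _ hn
  have ht' : ∀ k : ℤ, k ≠ 0 → t⁻¹ ^ k ∉ N := by
    intro k hk h1
    rw [inv_zpow, ← zpow_neg] at h1
    exact ht (-k) (neg_ne_zero.2 hk) h1
  -- the third ray
  obtain ⟨c, hc⟩ := exists_third (K := N ⊔ Subgroup.zpowers t) le_sup_left hNH hHN hH hinf
  have htK : t ∈ N ⊔ Subgroup.zpowers t :=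
    (le_sup_right : Subgroup.zpowers t ≤ _) (Subgroup.mem_zpowers t)
  have hac := dis_third hn ht le_sup_left htK hc
  have hbc := dis_third hn' ht' le_sup_left (Subgroup.inv_mem _ htK) hc
  have hab := dis_pow hn ht
  have ha := hRAY G n _ _ _ _ _ h.low N t hn ht hfree
  have hb := hRAY G n _ _ _ _ _ h.low N t⁻¹ hn' ht' hfree
  rw [famP_eq] at ha hb
  have D : Dat (dgM w e3) (dgM w e2) (dgM w e1) (dgM w d2) (dgM w d1) (dgM w d0) V N
      (fun k => t ^ k) (fun k => t⁻¹ ^ k) c.h := by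
    refine ⟨h.colow, ?_, hVM, ⟨hab.1, hab.2, hbc.1, hbc.2, hac.2, hac.1, stp_ray (powRay hn ht),
      stp_ray (powRay hn' ht'), stp_ray c, ha, hb⟩, fun k => Subgroup.pow_mem _ hn k,
      fun k => Subgroup.pow_mem _ hn' k, c.hn, ⟨d, _, hx0⟩, ex2_ray h (powRay hn ht) _ hx0,
      ex2_ray h (powRay hn' ht') _ hx0, ex2_ray h c _ hx0⟩
    rw [← dgM_mul, h.low.dd, dgM_zero]
  obtain ⟨z, hz, hz1, hz0, hzu⟩ := cycles t_VD h hNw
  obtain ⟨p, q, hpq, u, hu, hu1⟩ := D.rank_le_one (z x) (z y) (hz x) (hz y) (hz1 x) (hz1 y)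
    (hz0 x) (hz0 y)
  rcases hpq with hp | hq
  · obtain ⟨χ, hχ, hχy, hχx⟩ := char_of_hom l hlx hly hp
    have h1 := hzu χ hχ x y p q u hu hu1
    rw [hχy, smul_zero, add_zero] at h1
    exact hχx h1
  · obtain ⟨χ, hχ, hχx, hχy⟩ := char_of_hom m hmy hmx hq
    have h1 := hzu χ hχ x y p q u hu hu1
    rw [hχx, smul_zero, zero_add] at h1
    exact hχy h1

variable {P : ℕ → Type} [∀ i, AddCommGroup (P i)]
  [∀ i, Module (MonoidAlgebra ℤ G) (P i)] {d : ∀ i, P (i + 1) →ₗ[MonoidAlgebra ℤ G] P i}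
  {ε : P 0 →+ ℤ}

theorem main_U (hRAY : S_RAY) (hFREE : S_FREE) (hGRP : S_GRP)
    (hR : Reso P d ε) (m : ℕ) (hm : ∀ i, m < i → Subsingleton (P i))
    [∀ i, Module.Finite (MonoidAlgebra ℤ G) (P i)]
    [∀ i, Module.Projective (MonoidAlgebra ℤ G) (P i)]
    (hcoh : ∀ i, i ≠ 3 → Subsingleton (groupCohomology (Rep.leftRegular ℤ G) i))
    (htop : Nonempty (groupCohomology (Rep.leftRegular ℤ G) 3 ≃+ ℤ))
    (N : Subgroup G) (hfree : IsFreeGroup N) (hfg : N.FG) (hnc : ∃ a ∈ N, ∃ b ∈ N, a * b ≠ b * a)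
    (H : Subgroup G) (hH : H ≠ ⊤ → H.FG) (hNH : N ≤ H)
    (hHN : H ≤ Subgroup.normalizer (N : Set G)) (t : G) (htH : t ∈ H)
    (ht : ∀ k : ℤ, k ≠ 0 → t ^ k ∉ N) : (N ⊔ Subgroup.zpowers t).relIndex H ≠ 0 := by
  intro hinf
  have hH' : H.FG := by
    by_cases h : H = ⊤
    · rw [h]
      exact (Group.fg_def.1 (fg_of_reso hR m hm hcoh htop))
    · exact hH h
  obtain ⟨w, n, e0, e1, e2, e3, d0, d1, d2, hFull⟩ := exists_full hR m hm hcoh htop
  obtain ⟨hfg0, hfree0, x, y, l, m', h1, h2, h3, h4⟩ := hGRP G N hfree hfg hnc w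
  have hle : N ⊓ w.ker ≤ N := inf_le_left
  have hnorm : Subgroup.normalizer (N : Set G) ≤
      Subgroup.normalizer ((N ⊓ w.ker : Subgroup G) : Set G) := by
    intro g hg
    rw [Subgroup.mem_normalizer_iff] at hg ⊢
    intro a
    rw [Subgroup.mem_inf, Subgroup.mem_inf, ← hg a, MonoidHom.mem_ker, MonoidHom.mem_ker, map_mul,
      map_mul, map_inv, mul_comm (w g), mul_assoc, mul_inv_cancel, mul_one]
  have hall := hFREE G n w _ _ _ _ _ _ _ hFull (allDer_RR (hcoh 1 (by norm_num))) (N ⊓ w.ker)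
    hfree0
  refine contra_U hRAY (N := N ⊓ w.ker) (t := t) hFull hall (fun a ha => ha.2) hfg0 h1 h2 h3 h4
    (hnorm (hHN htH)) (fun k hk h => ht k hk h.1) (hle.trans hNH) (hHN.trans hnorm) hH' ?_
  exact Subgroup.relIndex_eq_zero_of_le_left (sup_le_sup_right hle _) hinf

end

end Pool.Agent.J4H59.PH
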