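import Pool.Agent.J4H59.PH.Dim

/-!
# The pairing of cycles and derivations
-/

set_option autoImplicit false
set_option linter.unusedSectionVars false

open scoped Classical Matrix

namespace Pool.Agent.J4H59.PH

open Pool.Agent.Helper386.PD3 Pool.Agent.J4H59.PD Pool.Agent.J4H59.PE

noncomputable section

variable {G : Type} [Group G] {A : Subgroup G} {w : G →* ℤˣ}

/-- the base point of the functions with finite support -/
def m0 (A : Subgroup G) : (famF A).sub := ⟨ind0 A, ind0_mem A⟩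

theorem gof_m0 {a : G} (ha : a ∈ A) : gof a • m0 A = m0 A := by
  apply Subtype.ext
  refine fn_ext fun y => ?_
  change (gof a • ind0 A) y = ind0 A y
  rw [gof_ind0]
  have h1 : (a : G ⧸ A) = ((1 : G) : G ⧸ A) := by
    rw [eq_comm, QuotientGroup.eq, inv_one, one_mul]
    exact ha
  rw [h1]
  rfl

theorem exists_der (χ : A → EE) (hχ : ∀ a b, χ (a * b) = χ a + χ b)
    (hA : ∀ a ∈ A, w a = 1) : ∃ κ : G → Du w (famF A).sub,
      (∀ g h, κ (g * h) = κ g + gof g • κ h) ∧ ∀ a : A, (κ (a : G)).ev (m0 A) = -χ a := by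
  let κ : G → Du w (famF A).sub := fun g => sumc w fun y => ((w (rp y) : ℤˣ) : ℤ) • χ (al g y)
  have hw : ∀ (g : G) (y : G ⧸ A),
      ((w g : ℤˣ) : ℤ) * ((w (rp (g⁻¹ • y)) : ℤˣ) : ℤ) = ((w (rp y) : ℤˣ) : ℤ) := by
    intro g y
    have h1 := hA _ (al_mem g y)
    rw [map_mul, map_mul, map_inv, map_inv] at h1
    rw [← Units.val_mul]
    congr 1
    rw [inv_mul_eq_one] at h1
    rw [h1]
    group
  have hder : ∀ g h, κ (g * h) = κ g + gof g • κ h := by
    intro g h
    refine Du.ext fun m => ?_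
    rw [Du.ev_add, Du.ev_gof, sumc_ev, sumc_ev, sumc_ev]
    have h1 : (∑ᶠ y, ((gof g⁻¹ • m : (famF A).sub) : Fn A) y •
        ((w (rp y) : ℤˣ) : ℤ) • χ (al h y)) =
        ∑ᶠ y, (m : Fn A) y • ((w (rp (g⁻¹ • y)) : ℤˣ) : ℤ) • χ (al h (g⁻¹ • y)) := by
      rw [← finsum_comp_equiv (MulAction.toPerm g⁻¹)]
      refine finsum_congr fun y => ?_
      rw [MulAction.toPerm_apply, Submodule.coe_smul, gof_apply, inv_inv, smul_inv_smul]
    rw [h1, smul_finsum' _ (fin_supp m _), ← finsum_add_distrib (fin_supp m _)]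
    · refine finsum_congr fun y => ?_
      rw [al_mul, hχ, smul_add, smul_add, add_comm]
      congr 1
      rw [smul_comm ((w g : ℤˣ) : ℤ) ((m : Fn A) y), smul_smul ((w g : ℤˣ) : ℤ), hw]
    · refine (fin_supp m (fun y => ((w (rp (g⁻¹ • y)) : ℤˣ) : ℤ) • χ (al h (g⁻¹ • y)))).subset ?_
      intro y hy hy0
      apply hy
      have hy0 : (m : Fn A) y • ((w (rp (g⁻¹ • y)) : ℤˣ) : ℤ) • χ (al h (g⁻¹ • y)) = 0 := hy0
      change ((w g : ℤˣ) : ℤ) • (m : Fn A) y • ((w (rp (g⁻¹ • y)) : ℤˣ) : ℤ) •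
        χ (al h (g⁻¹ • y)) = 0
      rw [hy0, smul_zero]
  refine ⟨κ, hder, fun a => ?_⟩
  let x₀ : G ⧸ A := ((1 : G) : G ⧸ A)
  have hx₀ : ∀ b ∈ A, b • x₀ = x₀ := by
    intro b hb
    change ((b * 1 : G) : G ⧸ A) = ((1 : G) : G ⧸ A)
    rw [QuotientGroup.eq, mul_one, mul_one]
    exact A.inv_mem hb
  have h1 : (κ (a : G)).ev (m0 A) = ((w (rp x₀) : ℤˣ) : ℤ) • χ (al (a : G) x₀) := by
    rw [sumc_ev, finsum_eq_single _ x₀]
    · change (if x₀ = x₀ then (1 : ℤ) else 0) • _ = _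
      rw [if_pos rfl, one_smul]
    · intro y hy
      change (if y = x₀ then (1 : ℤ) else 0) • _ = _
      rw [if_neg hy, zero_smul]
  have hr : rp x₀ ∈ A := by
    have h2 := mk_rp x₀
    have h3 : ((rp x₀ : G) : G ⧸ A) = ((1 : G) : G ⧸ A) := h2
    rw [eq_comm, QuotientGroup.eq, inv_one, one_mul] at h3
    exact h3
  have hone : χ 1 = 0 := by
    have := hχ 1 1
    rw [mul_one] at this
    simpa using this
  have hinv : ∀ b : A, χ b⁻¹ = -χ b := by
    intro b
    rw [eq_neg_iff_add_eq_zero, ← hχ, inv_mul_cancel, hone]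
  have h2 : χ (al (a : G) x₀) = -χ a := by
    have h3 : al (a : G) x₀ = (⟨rp x₀, hr⟩ : A)⁻¹ * (a⁻¹ * ⟨rp x₀, hr⟩) := by
      apply Subtype.ext
      rw [al_coe, hx₀ _ (A.inv_mem a.2)]
      rfl
    rw [h3, hχ, hχ, hinv, hinv]
    abel
  rw [h1, h2, hA _ hr, Units.val_one, one_smul]

variable {n : ℕ}

/-- entries of a row times a matrix, with daggers -/
theorem col_dg (D : MR G n) (v : Fin n → RR G) (m : (famF A).sub) :
    col (dgM w D) (fun i => dg w (v i) • m) = fun i => dg w ((v ᵥ* D) i) • m := by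
  funext i
  change ∑ j, dg w (D j i) • dg w (v j) • m = dg w (∑ j, v j * D j i) • m
  rw [dg_sum, Finset.sum_smul]
  exact Finset.sum_congr rfl fun j _ => by rw [dg_mul, mul_smul]

/-- the cycles attached to the elements of the subgroup -/
theorem cycles (hV : S_VD) {e0 e1 e2 e3 d0 d1 d2 : MR G n} (h : Full w e0 e1 e2 e3 d0 d1 d2)
    (hA : ∀ a ∈ A, w a = 1) : ∃ z : A → (Fin n → Fn A), (∀ x i, (supp (z x i)).Finite) ∧
      (∀ x, col (dgM w e1) (z x) = z x) ∧ (∀ x, col (dgM w d0) (z x) = 0) ∧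
      ∀ (χ : A → EE), (∀ a b, χ (a * b) = χ a + χ b) → ∀ (x y : A) (p q : ℤ)
        (u : Fin n → Fn A), (∀ i, (supp (u i)).Finite) →
        col (dgM w d1) u = p • z x + q • z y → p • χ x + q • χ y = 0 := by
  obtain ⟨V, u0, hV1, hV0, hVM⟩ := hV G n e0 e1 e2 d0 d1 h.low
  let z : A → (Fin n → (famF A).sub) := fun x i => dg w (V (x : G) i) • m0 A
  have hz1 : ∀ x, col (dgM w e1) (z x) = z x := by
    intro x
    change col (dgM w e1) (fun i => dg w (V (x : G) i) • m0 A) = _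
    rw [col_dg, hV1]
  have hz0 : ∀ x, col (dgM w d0) (z x) = 0 := by
    intro x
    change col (dgM w d0) (fun i => dg w (V (x : G) i) • m0 A) = _
    rw [col_dg, hV0]
    funext i
    change dg w (gof (x : G) * u0 i - u0 i) • m0 A = 0
    have h1 : gof (x : G) * u0 i - u0 i = (gof (x : G) - 1) * u0 i := by
      rw [sub_mul, one_mul]
    rw [h1, dg_mul, mul_smul, dg_sub, dg_one, dg_of, hA _ x.2, Units.val_one, one_smul, sub_smul,
      gof_m0 (A.inv_mem x.2), one_smul, sub_self, smul_zero]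
  have hcoe : ∀ (D : MR G n) (φ : Fin n → (famF A).sub),
      col D (fun j => (φ j : Fn A)) = fun i => ((col D φ i : (famF A).sub) : Fn A) := by
    intro D φ
    funext i
    exact (col_coe D φ i).symm
  refine ⟨fun x i => (z x i : Fn A), fun x i => (z x i).2, fun x => ?_, fun x => ?_, ?_⟩
  · rw [hcoe, hz1]
  · rw [hcoe, hz0]
    rfl
  · intro χ hχ x y p q u hu huz
    obtain ⟨κ, hκ, hκ'⟩ := exists_der (w := w) χ hχ hA
    obtain ⟨φ, hφ1, hφ2, ν, hν⟩ := (hVM (Du w (famF A).sub)).2 κ hκ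
    have hpair : ∀ x : A, Psi φ (z x) = -χ x := by
      intro x
      have h1 : Psi φ (z x) = (pr (V (x : G)) φ).ev (m0 A) := by
        rw [Psi_apply]
        change _ = (∑ i, V (x : G) i • φ i).ev (m0 A)
        rw [Du.ev_sum]
        rfl
      rw [h1, hν, Du.ev_add, Du.ev_sub, Du.ev_gof, hA _ x.2, Units.val_one, one_smul,
        gof_m0 (A.inv_mem x.2), sub_self, add_zero, hκ']
    let u' : Fin n → (famF A).sub := fun i => ⟨u i, hu i⟩
    have h1 : col (dgM w d1) u' = p • z x + q • z y := by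
      funext i
      apply Subtype.ext
      rw [col_coe]
      exact congrFun huz i
    have h2 : Psi φ (col (dgM w d1) u') = 0 := by
      rw [← Psi_col, hφ2, Psi_zero]
    rw [h1, map_add, map_zsmul, map_zsmul, hpair, hpair, smul_neg, smul_neg, ← neg_add,
      neg_eq_zero] at h2
    exact h2

/-- characters from homomorphisms to the integers -/
theorem char_of_hom {B : Type} [Group B] (l : B →* Multiplicative ℤ) {x y : B}
    (hx : l x = Multiplicative.ofAdd 1) (hy : l y = 1) {p : ℤ} (hp : p ≠ 0) :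
    ∃ χ : B → EE, (∀ a b, χ (a * b) = χ a + χ b) ∧ χ y = 0 ∧ p • χ x ≠ 0 := by
  let χ : B → EE := fun b => (((Multiplicative.toAdd (l b) : ℤ) * (1 / (2 * p)) : ℚ) : EE)
  refine ⟨χ, fun a b => ?_, ?_, ?_⟩
  · change (((Multiplicative.toAdd (l (a * b)) : ℤ) * (1 / (2 * p)) : ℚ) : EE) = _
    rw [map_mul, toAdd_mul, Int.cast_add, add_mul]
    rfl
  · change (((Multiplicative.toAdd (l y) : ℤ) * (1 / (2 * p)) : ℚ) : EE) = 0
    rw [hy, toAdd_one, Int.cast_zero, zero_mul]
    rfl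
  · intro h0
    have h1 : p • χ x = ((1 / 2 : ℚ) : EE) := by
      change p • (((Multiplicative.toAdd (l x) : ℤ) * (1 / (2 * p)) : ℚ) : EE) = _
      rw [hx, toAdd_ofAdd, Int.cast_one, one_mul]
      have h2 : p • (((1 / (2 * p) : ℚ)) : EE) = ((p • (1 / (2 * p)) : ℚ) : EE) := by
        exact (AddCircle.coe_zsmul 1).symm
      rw [h2]
      congr 1
      have hp' : (p : ℚ) ≠ 0 := by exact_mod_cast hp
      rw [zsmul_eq_mul]
      field_simp
    rw [h1] at h0
    have h3 := (AddCircle.coe_eq_zero_iff (1 : ℚ)).1 h0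
    obtain ⟨k, hk⟩ := h3
    rw [zsmul_eq_mul, mul_one] at hk
    have h4 : (2 * k : ℚ) = 1 := by
      rw [hk]
      norm_num
    have h5 : 2 * k = 1 := by exact_mod_cast h4
    omega

end

end Pool.Agent.J4H59.PH
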