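import Pool.Agent.J4H59.PD.PartC

/-!
# Almost invariant functions and rays
-/

set_option autoImplicit false
set_option linter.unusedSectionVars false

open scoped Classical
open Filter

namespace Pool.Agent.J4H59.PH

open Pool.Agent.Helper386.PD3 Pool.Agent.J4H59.PD

noncomputable section

variable {G : Type} [Group G] {N : Subgroup G}

/-- the family of supports in finitely many translates of a ray -/
def rayF (N : Subgroup G) (t : ℕ → G) : Fam N where
  mem s := ∃ T : Finset G, ∀ x ∈ s, ∃ g ∈ T, ∃ k : ℕ, x = ((g * t k : G) : G ⧸ N)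
  empty := ⟨∅, fun x hx => absurd hx (Set.notMem_empty x)⟩
  mono := by
    rintro s s' h ⟨T, hT⟩
    exact ⟨T, fun x hx => hT x (h hx)⟩
  union := by
    rintro s s' ⟨T, hT⟩ ⟨T', hT'⟩
    refine ⟨T ∪ T', ?_⟩
    rintro x (hx | hx)
    · obtain ⟨g, hg, k, h⟩ := hT x hx
      exact ⟨g, Finset.mem_union_left _ hg, k, h⟩
    · obtain ⟨g, hg, k, h⟩ := hT' x hx
      exact ⟨g, Finset.mem_union_right _ hg, k, h⟩
  smul := by
    rintro g s ⟨T, hT⟩
    refine ⟨T.image (fun g' => g⁻¹ * g'), fun x hx => ?_⟩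
    obtain ⟨g', hg', k, h⟩ := hT _ hx
    refine ⟨g⁻¹ * g', Finset.mem_image_of_mem _ hg', k, ?_⟩
    have h1 : x = g⁻¹ • ((g' * t k : G) : G ⧸ N) := by rw [← h, inv_smul_smul]
    rw [h1, mul_assoc]
    rfl

/-- pointwise product -/
def mulf (f f' : Fn N) : Fn N := fun x => f x * f' x

theorem mulf_apply (f f' : Fn N) (x : G ⧸ N) : mulf f f' x = f x * f' x := rfl

/-- constant functions -/
def cst (N : Subgroup G) (c : ℤ) : Fn N := fun _ => c

theorem cst_apply (c : ℤ) (x : G ⧸ N) : cst N c x = c := rfl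

theorem gof_cst (g : G) (c : ℤ) : gof g • cst N c = cst N c :=
  fn_ext fun x => by rw [gof_apply, cst_apply, cst_apply]

theorem gof_mulf (g : G) (f f' : Fn N) : gof g • mulf f f' = mulf (gof g • f) (gof g • f') :=
  fn_ext fun x => by rw [gof_apply, mulf_apply, mulf_apply, gof_apply, gof_apply]

theorem zsmul_fn' (z : ℤ) (f : Fn N) (y : G ⧸ N) : (z • f) y = z * f y := rfl

/-- the function has the eventual value `v` along each translate of the ray -/
def Ev (t : ℕ → G) (v : ℤ) (f : Fn N) : Prop :=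
  ∀ g : G, ∀ᶠ k : ℕ in atTop, f ((g * t k : G) : G ⧸ N) = v

theorem Ev.add {t : ℕ → G} {v v' : ℤ} {f f' : Fn N} (h : Ev t v f) (h' : Ev t v' f') :
    Ev t (v + v') (f + f') := fun g => ((h g).and (h' g)).mono fun k hk => by
  rw [PD.add_apply, hk.1, hk.2]

theorem Ev.sub {t : ℕ → G} {v v' : ℤ} {f f' : Fn N} (h : Ev t v f) (h' : Ev t v' f') :
    Ev t (v - v') (f - f') := fun g => ((h g).and (h' g)).mono fun k hk => by
  rw [PD.sub_apply, hk.1, hk.2]

theorem Ev.zsmul {t : ℕ → G} {v : ℤ} {f : Fn N} (z : ℤ) (h : Ev t v f) :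
    Ev t (z * v) (z • f) := fun g => (h g).mono fun k hk => by
  rw [zsmul_fn', hk]

theorem Ev.mul_left {t : ℕ → G} {f : Fn N} (h : Ev t 0 f) (f' : Fn N) : Ev t 0 (mulf f f') :=
  fun g => (h g).mono fun k hk => by rw [mulf_apply, hk, zero_mul]

theorem Ev.mul_right {t : ℕ → G} {f' : Fn N} (f : Fn N) (h : Ev t 0 f') : Ev t 0 (mulf f f') :=
  fun g => (h g).mono fun k hk => by rw [mulf_apply, hk, mul_zero]

theorem Ev.gof {t : ℕ → G} {v : ℤ} {f : Fn N} (g : G) (h : Ev t v f) :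
    Ev t v (Pool.Agent.Helper386.PD3.gof g • f) := fun g' => (h (g⁻¹ * g')).mono fun k hk => by
  rw [gof_apply, ← hk, mul_assoc]
  rfl

theorem ev_cst (t : ℕ → G) (c : ℤ) : Ev t c (cst N c) := fun _ => Eventually.of_forall fun _ => rfl

theorem Ev.uniq {t : ℕ → G} {v v' : ℤ} {f : Fn N} (h : Ev t v f) (h' : Ev t v' f) : v = v' := by
  obtain ⟨k, hk⟩ := ((h 1).and (h' 1)).exists
  rw [← hk.1, ← hk.2]

/-- two rays are disjoint up to translation and finite sets -/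
def Dis (N : Subgroup G) (t t' : ℕ → G) : Prop := ∀ g h : G,
  {k : ℕ | ∃ l : ℕ, ((g * t k : G) : G ⧸ N) = ((h * t' l : G) : G ⧸ N)}.Finite

theorem ev_of_mem {t t' : ℕ → G} (h : Dis N t t') {f : Fn N} (hf : f ∈ (rayF N t').sub) :
    Ev t 0 f := by
  intro g
  obtain ⟨T, hT⟩ := hf
  rw [← Nat.cofinite_eq_atTop, Filter.eventually_cofinite]
  refine ((Finset.finite_toSet T).biUnion (t := fun h => {k : ℕ | ∃ l : ℕ,
    ((g * t k : G) : G ⧸ N) = ((h * t' l : G) : G ⧸ N)}) fun h' _ => h g h').subset ?_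
  intro k hk
  obtain ⟨h', hh', l, hl⟩ := hT _ hk
  exact Set.mem_iUnion₂.2 ⟨h', hh', l, hl⟩

theorem fin_of_ev {t : ℕ → G} {f f' : Fn N} (hf : f ∈ (rayF N t).sub) (h : Ev t 0 f') :
    (supp (mulf f f')).Finite := by
  obtain ⟨T, hT⟩ := hf
  refine ((Finset.finite_toSet T).biUnion (t := fun g => (fun k : ℕ => ((g * t k : G) : G ⧸ N)) ''
    {k : ℕ | ¬ f' ((g * t k : G) : G ⧸ N) = 0}) fun g _ => Set.Finite.image _ ?_).subset ?_
  · have h1 := h g
    rw [← Nat.cofinite_eq_atTop, Filter.eventually_cofinite] at h1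
    exact h1
  · intro x hx
    have hx : f x * f' x ≠ 0 := hx
    obtain ⟨g, hg, k, hk⟩ := hT x (left_ne_zero_of_mul hx)
    refine Set.mem_iUnion₂.2 ⟨g, hg, k, ?_, hk.symm⟩
    have h2 := right_ne_zero_of_mul hx
    rw [hk] at h2
    exact h2

theorem ray_of_fin {f : Fn N} (h : (supp f).Finite) (t : ℕ → G) : f ∈ (rayF N t).sub := by
  refine ⟨h.toFinset.image fun x => rp x * (t 0)⁻¹, fun x hx => ?_⟩
  refine ⟨rp x * (t 0)⁻¹, Finset.mem_image_of_mem _ (h.mem_toFinset.2 hx), 0, ?_⟩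
  rw [inv_mul_cancel_right, mk_rp]

theorem mul_mem_left {Φ : Fam N} {f : Fn N} (hf : f ∈ Φ.sub) (f' : Fn N) :
    mulf f f' ∈ Φ.sub := Φ.mono (fun x hx => left_ne_zero_of_mul hx) hf

theorem mul_mem_right {Φ : Fam N} {f' : Fn N} (f : Fn N) (hf : f' ∈ Φ.sub) :
    mulf f f' ∈ Φ.sub := Φ.mono (fun x hx => right_ne_zero_of_mul hx) hf

theorem mem_sup_fam {Φ Φ' : Fam N} {f : Fn N} : f ∈ Φ.sub ⊔ Φ'.sub ↔
    ∃ S S' : Set (G ⧸ N), Φ.mem S ∧ Φ'.mem S' ∧ supp f ⊆ S ∪ S' := by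
  rw [Submodule.mem_sup]
  constructor
  · rintro ⟨f1, h1, f2, h2, rfl⟩
    refine ⟨supp f1, supp f2, h1, h2, fun x hx => ?_⟩
    by_contra hcon
    rw [Set.mem_union, not_or] at hcon
    have h3 : f1 x = 0 := not_not.1 hcon.1
    have h4 : f2 x = 0 := not_not.1 hcon.2
    apply hx
    rw [PD.add_apply, h3, h4, add_zero]
  · rintro ⟨S, S', hS, hS', h⟩
    refine ⟨cut S f, Φ.mono ?_ hS, cut Sᶜ f, Φ'.mono ?_ hS', ?_⟩
    · intro x hx
      by_contra hcon
      exact hx (cut_of_notMem f hcon)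
    · intro x hx
      have h1 : x ∈ Sᶜ := by
        by_contra hcon
        exact hx (cut_of_notMem f hcon)
      exact (h (supp_cut _ _ hx)).resolve_left h1
    · refine fn_ext fun y => ?_
      rw [PD.add_apply]
      by_cases h : y ∈ S
      · rw [cut_of_mem f h, cut_of_notMem f (s := Sᶜ) (fun h' => h' h), add_zero]
      · rw [cut_of_notMem f h, cut_of_mem f (s := Sᶜ) h, zero_add]

theorem mem_sup_of_sq {Φ Φ' : Fam N} {f : Fn N} (h : mulf f f ∈ Φ.sub ⊔ Φ'.sub) :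
    f ∈ Φ.sub ⊔ Φ'.sub := by
  rw [mem_sup_fam] at h ⊢
  obtain ⟨S, S', h1, h2, h3⟩ := h
  exact ⟨S, S', h1, h2, fun x hx => h3 (mul_ne_zero hx hx)⟩

/-- the sequence has finitely many steps -/
def Stp (t : ℕ → G) : Prop := ∃ S : Finset G, ∀ k, ∃ s ∈ S, t (k + 1) = s * t k

/-- almost invariant functions have eventual values along rays -/
theorem exists_ev {t : ℕ → G} (hs : Stp t) {M : Submodule (RR G) (Fn N)} (hM : ∀ m ∈ M, Ev t 0 m)
    {f : Fn N} (hf : ∀ g : G, gof g • f - f ∈ M) : ∃ v, Ev t v f := by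
  obtain ⟨S, hS⟩ := hs
  have h1 : ∀ g : G, ∃ v, ∀ᶠ k : ℕ in atTop, f ((g * t k : G) : G ⧸ N) = v := by
    intro g
    have h2 : ∀ᶠ k : ℕ in atTop, ∀ s ∈ S,
        (gof (g * s * g⁻¹) • f - f) ((g * t k : G) : G ⧸ N) = 0 := by
      rw [Filter.eventually_all_finset]
      exact fun s _ => hM _ (hf (g * s * g⁻¹)) g
    obtain ⟨K, hK⟩ := Filter.eventually_atTop.1 h2
    have h3 : ∀ k, K ≤ k → f ((g * t (k + 1) : G) : G ⧸ N) = f ((g * t k : G) : G ⧸ N) := by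
      intro k hk
      obtain ⟨s, hs, hsk⟩ := hS k
      have h4 := hK (k + 1) (by omega) s hs
      rw [PD.sub_apply, gof_apply] at h4
      have h5 : (g * s * g⁻¹)⁻¹ • ((g * t (k + 1) : G) : G ⧸ N) = ((g * t k : G) : G ⧸ N) := by
        change (((g * s * g⁻¹)⁻¹ * (g * t (k + 1)) : G) : G ⧸ N) = _
        rw [hsk]
        congr 1
        group
      rw [h5] at h4
      linarith
    refine ⟨f ((g * t K : G) : G ⧸ N), Filter.eventually_atTop.2 ⟨K, fun k hk => ?_⟩⟩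
    induction k, hk using Nat.le_induction with
    | base => rfl
    | succ k hk ih => rw [h3 k hk, ih]
  choose v hv using h1
  refine ⟨v 1, fun g => ?_⟩
  have h2 := hM _ (hf g) g
  have h3 : v g = v 1 := by
    obtain ⟨k, hk1, hk2, hk3⟩ := (h2.and ((hv g).and (hv 1))).exists
    rw [PD.sub_apply, gof_apply] at hk1
    have h5 : g⁻¹ • ((g * t k : G) : G ⧸ N) = ((1 * t k : G) : G ⧸ N) := by
      change ((g⁻¹ * (g * t k) : G) : G ⧸ N) = _
      congr 1
      group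
    rw [h5] at hk1
    rw [← hk2, ← hk3]
    linarith
  rw [← h3]
  exact hv g

theorem const_of_der {M : Submodule (RR G) (Fn N)} (hM : AllDer (G := G) M) {f : Fn N}
    (hf : ∀ g : G, gof g • f - f ∈ M) : ∃ c : ℤ, f - cst N c ∈ M := by
  obtain ⟨μ, hμ⟩ := hM (fun g => (⟨gof g • f - f, hf g⟩ : M)) (by
    intro g h
    apply Subtype.ext
    change gof (g * h) • f - f = (gof g • f - f) + gof g • (gof h • f - f)
    rw [gof_mul, mul_smul, smul_sub]
    abel)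
  have h1 : ∀ g : G, gof g • (f - (μ : Fn N)) = f - (μ : Fn N) := by
    intro g
    have h2 : gof g • f - f = gof g • (μ : Fn N) - (μ : Fn N) := congrArg Subtype.val (hμ g)
    rw [smul_sub, sub_eq_sub_iff_sub_eq_sub]
    exact h2
  refine ⟨(f - (μ : Fn N)) ((1 : G) : G ⧸ N), ?_⟩
  have h3 : f - (μ : Fn N) = cst N ((f - (μ : Fn N)) ((1 : G) : G ⧸ N)) := by
    refine fn_ext fun y => ?_
    induction y using QuotientGroup.induction_on with
    | H a =>
      have h4 := congrArg (fun F : Fn N => F (a : G ⧸ N)) (h1 a)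
      have h5 : (gof a • (f - (μ : Fn N))) (a : G ⧸ N) = (f - (μ : Fn N)) (a : G ⧸ N) := h4
      rw [gof_apply] at h5
      have h6 : a⁻¹ • (a : G ⧸ N) = ((1 : G) : G ⧸ N) := by
        change ((a⁻¹ * a : G) : G ⧸ N) = _
        rw [inv_mul_cancel]
      rw [h6] at h5
      rw [cst_apply, h5]
  rw [← h3]
  have h4 : f - (f - (μ : Fn N)) = (μ : Fn N) := by abel
  rw [h4]
  exact μ.2

/-- the product of almost invariant functions -/
theorem prod_mem {a b c : ℕ → G} (hab : Dis N a b) (hdb : AllDer (G := G) (rayF N b).sub)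
    {φ ψ : Fn N} (hφ : ∀ g : G, gof g • φ - φ ∈ (rayF N a).sub ⊔ (rayF N b).sub)
    (hφc : Ev c 0 φ) (hψ : ∀ g : G, gof g • ψ - ψ ∈ (rayF N b).sub ⊔ (rayF N c).sub)
    (hψa : Ev a 0 ψ) : mulf φ ψ ∈ (rayF N b).sub := by
  have h1 : ∀ g : G, gof g • mulf φ ψ - mulf φ ψ ∈ (rayF N b).sub := by
    intro g
    obtain ⟨α, hα, β, hβ, h2⟩ := Submodule.mem_sup.1 (hφ g)
    obtain ⟨β', hβ', γ, hγ, h3⟩ := Submodule.mem_sup.1 (hψ g)
    have h4 : gof g • mulf φ ψ - mulf φ ψ = (mulf (gof g • φ) β' + mulf (gof g • φ) γ) +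
        (mulf α ψ + mulf β ψ) := by
      refine fn_ext fun x => ?_
      have h5 : α x + β x = (gof g • φ) x - φ x := by
        rw [← PD.add_apply, h2, PD.sub_apply]
      have h6 : β' x + γ x = (gof g • ψ) x - ψ x := by
        rw [← PD.add_apply, h3, PD.sub_apply]
      rw [gof_mulf, PD.sub_apply, PD.add_apply, PD.add_apply, PD.add_apply, mulf_apply, mulf_apply, mulf_apply,
        mulf_apply, mulf_apply, mulf_apply]
      linear_combination (-(gof g • φ) x) * h6 - (ψ x) * h5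
    rw [h4]
    refine Submodule.add_mem _ (Submodule.add_mem _ (mul_mem_right _ hβ') ?_)
      (Submodule.add_mem _ ?_ (mul_mem_left hβ _))
    · have h7 := fin_of_ev hγ (hφc.gof g)
      have h8 : mulf (gof g • φ) γ = mulf γ (gof g • φ) := fn_ext fun x => mul_comm _ _
      rw [h8]
      exact ray_of_fin h7 b
    · exact ray_of_fin (fin_of_ev hα hψa) b
  obtain ⟨c', hc'⟩ := const_of_der hdb h1
  have h2 : Ev a (0 - c') (mulf φ ψ - cst N c') := (Ev.mul_right φ hψa).sub (ev_cst a c')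
  have h3 : (0 : ℤ) - c' = 0 := h2.uniq (ev_of_mem hab hc')
  have h4 : c' = 0 := by omega
  have h5 : mulf φ ψ - cst N c' = mulf φ ψ := by
    refine fn_ext fun x => ?_
    rw [PD.sub_apply, cst_apply, h4, sub_zero]
  rw [h5] at hc'
  exact hc'

/-- three disjoint rays, two of them with vanishing first cohomology -/
structure Tri (N : Subgroup G) (a b c : ℕ → G) : Prop where
  ab : Dis N a b
  ba : Dis N b a
  bc : Dis N b c
  cb : Dis N c b
  ca : Dis N c a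
  ac : Dis N a c
  sa : Stp a
  sb : Stp b
  sc : Stp c
  da : AllDer (G := G) (rayF N a).sub
  db : AllDer (G := G) (rayF N b).sub

theorem fin_inf {a c : ℕ → G} (h : Dis N a c) {f : Fn N} (ha : f ∈ (rayF N a).sub)
    (hc : f ∈ (rayF N c).sub) : (supp f).Finite :=
  (fin_of_ev ha (ev_of_mem h hc)).subset fun _ hx => mul_ne_zero hx hx

theorem mem_of_decomp {a b c : ℕ → G} (H : Tri N a b c) {χ φ ψ : Fn N}
    (hχ : ∀ g : G, gof g • χ - χ ∈ (rayF N c).sub ⊔ (rayF N a).sub) (hχb : Ev b 0 χ)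
    (hφ : ∀ g : G, gof g • φ - φ ∈ (rayF N a).sub ⊔ (rayF N b).sub) (hφc : Ev c 0 φ)
    (hψ : ∀ g : G, gof g • ψ - ψ ∈ (rayF N b).sub ⊔ (rayF N c).sub) (hψa : Ev a 0 ψ)
    (h : χ = φ + ψ) : ∃ ω : Fn N, (∀ g : G, gof g • ω - ω ∈ (rayF N c).sub) ∧
      χ - ω ∈ (rayF N c).sub ⊔ (rayF N a).sub := by
  have h1 : mulf φ ψ ∈ (rayF N b).sub := prod_mem H.ab H.db hφ hφc hψ hψa
  have h2 : mulf χ φ ∈ (rayF N a).sub := prod_mem H.ca H.da hχ hχb hφ hφc
  have h4 : φ ∈ (rayF N a).sub ⊔ (rayF N b).sub := by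
    apply mem_sup_of_sq
    have h5 : mulf φ φ = mulf χ φ - mulf φ ψ := by
      refine fn_ext fun x => ?_
      rw [h, PD.sub_apply, mulf_apply, mulf_apply, mulf_apply, PD.add_apply]
      ring
    rw [h5]
    exact Submodule.sub_mem _ (Submodule.mem_sup_left h2) (Submodule.mem_sup_right h1)
  obtain ⟨α, hα, β, hβ, h6⟩ := Submodule.mem_sup.1 h4
  refine ⟨χ - α, fun g => ?_, ?_⟩
  · have h7 : gof g • (χ - α) - (χ - α) ∈ (rayF N c).sub ⊔ (rayF N a).sub := by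
      have h8 : gof g • (χ - α) - (χ - α) = (gof g • χ - χ) - (gof g • α - α) := by
        rw [smul_sub]
        abel
      rw [h8]
      exact Submodule.sub_mem _ (hχ g) (Submodule.mem_sup_right
        (Submodule.sub_mem _ (Submodule.smul_mem _ _ hα) hα))
    have h9 : gof g • (χ - α) - (χ - α) ∈ (rayF N b).sub ⊔ (rayF N c).sub := by
      have h8 : gof g • (χ - α) - (χ - α) = (gof g • ψ - ψ) + (gof g • β - β) := by
        rw [h, ← h6]
        rw [smul_sub, smul_add, smul_add]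
        abel
      rw [h8]
      exact Submodule.add_mem _ (hψ g) (Submodule.mem_sup_left
        (Submodule.sub_mem _ (Submodule.smul_mem _ _ hβ) hβ))
    obtain ⟨γ, hγ, α', hα', h10⟩ := Submodule.mem_sup.1 h7
    obtain ⟨β', hβ', γ', hγ', h11⟩ := Submodule.mem_sup.1 h9
    have h12 : Ev a 0 α' := by
      have h13 : α' = (β' + γ') - γ := by
        rw [h11, ← h10]
        abel
      rw [h13]
      have := ((ev_of_mem H.ab hβ').add (ev_of_mem H.ac hγ')).sub (ev_of_mem H.ac hγ)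
      rwa [add_zero, sub_zero] at this
    have h14 : (supp α').Finite := (fin_of_ev hα' h12).subset fun x hx => mul_ne_zero hx hx
    rw [← h10]
    exact Submodule.add_mem _ hγ (ray_of_fin h14 c)
  · have h15 : χ - (χ - α) = α := by abel
    rw [h15]
    exact Submodule.mem_sup_right hα

theorem ev_sup {t a b : ℕ → G} (ha : Dis N t a) (hb : Dis N t b) :
    ∀ m ∈ (rayF N a).sub ⊔ (rayF N b).sub, Ev t 0 m := by
  intro m hm
  obtain ⟨α, hα, β, hβ, rfl⟩ := Submodule.mem_sup.1 hm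
  have := (ev_of_mem ha hα).add (ev_of_mem hb hβ)
  rwa [add_zero] at this

theorem gof_sub_cst {g : G} {f : Fn N} (c : ℤ) : gof g • (f - cst N c) - (f - cst N c) =
    gof g • f - f := by
  rw [smul_sub, gof_cst]
  abel

/-- any two almost invariant functions for two of the rays are dependent modulo trivial ones, if
they decompose -/
theorem dependent {a b c : ℕ → G} (H : Tri N a b c)
    (hdec : ∀ χ : Fn N, (∀ g : G, gof g • χ - χ ∈ (rayF N c).sub ⊔ (rayF N a).sub) →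
      ∃ φ ψ : Fn N, (∀ g : G, gof g • φ - φ ∈ (rayF N a).sub ⊔ (rayF N b).sub) ∧
        (∀ g : G, gof g • ψ - ψ ∈ (rayF N b).sub ⊔ (rayF N c).sub) ∧
        ∃ e : ℤ, χ = φ + ψ + cst N e)
    (χ₁ χ₂ : Fn N) (h₁ : ∀ g : G, gof g • χ₁ - χ₁ ∈ (rayF N c).sub ⊔ (rayF N a).sub)
    (h₂ : ∀ g : G, gof g • χ₂ - χ₂ ∈ (rayF N c).sub ⊔ (rayF N a).sub) :
    ∃ (p q e : ℤ) (ω : Fn N), (p ≠ 0 ∨ q ≠ 0) ∧ (∀ g : G, gof g • ω - ω ∈ (rayF N c).sub) ∧
      p • χ₁ + q • χ₂ - cst N e - ω ∈ (rayF N c).sub ⊔ (rayF N a).sub := by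
  -- normalised decompositions
  have key : ∀ χ : Fn N, (∀ g : G, gof g • χ - χ ∈ (rayF N c).sub ⊔ (rayF N a).sub) →
      ∃ (φ ψ : Fn N) (e e' : ℤ), (∀ g : G, gof g • φ - φ ∈ (rayF N a).sub ⊔ (rayF N b).sub) ∧
        (∀ g : G, gof g • ψ - ψ ∈ (rayF N b).sub ⊔ (rayF N c).sub) ∧ Ev c 0 φ ∧ Ev a 0 ψ ∧
        Ev b 0 (χ - cst N e') ∧ χ - cst N e' = φ + ψ + cst N e := by
    intro χ hχ
    obtain ⟨φ, ψ, hφ, hψ, e, he⟩ := hdec χ hχ
    obtain ⟨v1, hv1⟩ := exists_ev H.sc (ev_sup H.ca H.cb) hφ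
    obtain ⟨v2, hv2⟩ := exists_ev H.sa (ev_sup H.ab H.ac) hψ
    obtain ⟨v3, hv3⟩ := exists_ev H.sb (ev_sup H.bc H.ba) hχ
    refine ⟨φ - cst N v1, ψ - cst N v2, e + v1 + v2 - v3, v3, fun g => ?_, fun g => ?_, ?_, ?_, ?_,
      ?_⟩
    · rw [gof_sub_cst]
      exact hφ g
    · rw [gof_sub_cst]
      exact hψ g
    · have := hv1.sub (ev_cst c v1)
      rwa [sub_self] at this
    · have := hv2.sub (ev_cst a v2)
      rwa [sub_self] at this
    · have := hv3.sub (ev_cst b v3)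
      rwa [sub_self] at this
    · rw [he]
      refine fn_ext fun x => ?_
      simp only [PD.sub_apply, PD.add_apply, cst_apply]
      ring
  have key2 : ∀ (p q : ℤ) (χ χ' φ φ' ψ ψ' : Fn N) (e e' : ℤ),
      (∀ g : G, gof g • χ - χ ∈ (rayF N c).sub ⊔ (rayF N a).sub) →
      (∀ g : G, gof g • χ' - χ' ∈ (rayF N c).sub ⊔ (rayF N a).sub) →
      (∀ g : G, gof g • φ - φ ∈ (rayF N a).sub ⊔ (rayF N b).sub) →
      (∀ g : G, gof g • φ' - φ' ∈ (rayF N a).sub ⊔ (rayF N b).sub) →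
      (∀ g : G, gof g • ψ - ψ ∈ (rayF N b).sub ⊔ (rayF N c).sub) →
      (∀ g : G, gof g • ψ' - ψ' ∈ (rayF N b).sub ⊔ (rayF N c).sub) →
      Ev c 0 φ → Ev c 0 φ' → Ev a 0 ψ → Ev a 0 ψ' → Ev b 0 χ → Ev b 0 χ' →
      χ = φ + ψ + cst N e → χ' = φ' + ψ' + cst N e' → p * e + q * e' = 0 →
      ∃ ω : Fn N, (∀ g : G, gof g • ω - ω ∈ (rayF N c).sub) ∧
        p • χ + q • χ' - ω ∈ (rayF N c).sub ⊔ (rayF N a).sub := by
    intro p q χ χ' φ φ' ψ ψ' e e' a1 a2 a3 a4 a5 a6 b1 b2 b3 b4 b5 b6 c1 c2 hpq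
    have hl : ∀ (M : Submodule (RR G) (Fn N)) (f f' : Fn N), (∀ g : G, gof g • f - f ∈ M) →
        (∀ g : G, gof g • f' - f' ∈ M) → ∀ g : G,
        gof g • (p • f + q • f') - (p • f + q • f') ∈ M := by
      intro M f f' hf hf' g
      have h1 : gof g • (p • f + q • f') - (p • f + q • f') =
          p • (gof g • f - f) + q • (gof g • f' - f') := by
        rw [smul_add, smul_comm (gof g) p, smul_comm (gof g) q, smul_sub, smul_sub]
        abel
      rw [h1]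
      exact Submodule.add_mem _ (zsmul_mem (hf g) p) (zsmul_mem (hf' g) q)
    have he : ∀ (t : ℕ → G) (f f' : Fn N), Ev t 0 f → Ev t 0 f' → Ev t 0 (p • f + q • f') := by
      intro t f f' hf hf'
      have := (hf.zsmul p).add (hf'.zsmul q)
      rwa [mul_zero, mul_zero, add_zero] at this
    refine mem_of_decomp H (φ := p • φ + q • φ') (ψ := p • ψ + q • ψ') (hl _ _ _ a1 a2)
      (he _ _ _ b5 b6) (hl _ _ _ a3 a4) (he _ _ _ b1 b2) (hl _ _ _ a5 a6) (he _ _ _ b3 b4) ?_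
    rw [c1, c2]
    refine fn_ext fun x => ?_
    simp only [PD.add_apply, zsmul_fn', cst_apply]
    linear_combination hpq
  obtain ⟨φ₁, ψ₁, e₁, f₁, a1, a2, a3, a4, a5, a6⟩ := key χ₁ h₁
  obtain ⟨φ₂, ψ₂, e₂, f₂, b1, b2, b3, b4, b5, b6⟩ := key χ₂ h₂
  have h₁' : ∀ g : G, gof g • (χ₁ - cst N f₁) - (χ₁ - cst N f₁) ∈
      (rayF N c).sub ⊔ (rayF N a).sub := fun g => by
    rw [gof_sub_cst]
    exact h₁ g
  have h₂' : ∀ g : G, gof g • (χ₂ - cst N f₂) - (χ₂ - cst N f₂) ∈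
      (rayF N c).sub ⊔ (rayF N a).sub := fun g => by
    rw [gof_sub_cst]
    exact h₂ g
  have h3 : ∃ p q : ℤ, (p ≠ 0 ∨ q ≠ 0) ∧ p * e₁ + q * e₂ = 0 := by
    by_cases he : e₁ = 0
    · exact ⟨1, 0, Or.inl one_ne_zero, by rw [he]; ring⟩
    · exact ⟨e₂, -e₁, Or.inr (neg_ne_zero.2 he), by ring⟩
  obtain ⟨p, q, hpq, h4⟩ := h3
  obtain ⟨ω, hω, h5⟩ := key2 p q _ _ _ _ _ _ e₁ e₂ h₁' h₂' a1 b1 a2 b2 a3 b3 a4 b4 a5 b5 a6 b6 h4
  refine ⟨p, q, p * f₁ + q * f₂, ω, hpq, hω, ?_⟩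
  have h6 : p • χ₁ + q • χ₂ - cst N (p * f₁ + q * f₂) =
      p • (χ₁ - cst N f₁) + q • (χ₂ - cst N f₂) := by
    refine fn_ext fun x => ?_
    simp only [PD.add_apply, PD.sub_apply, zsmul_fn', cst_apply]
    ring
  rw [h6]
  exact h5

end

end Pool.Agent.J4H59.PH
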